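import Pool.Agent.H988R4.Cover
import Pool.Agent.H988R3.P4Base

/-!
# Transfer: from connections of faces to four-arm events (task T3, helper355)
-/

namespace Pool.Agent.H988R4
open Equiv Pool.Agent.H974R3 Pool.Agent.H988R3
open H974 hiding SS

theorem T3_conn_left {L : ℕ} (σ τ : Pat L) (v : Vx L) :
    Conn σ.1 τ.1 (σ.1 v) none ↔ Conn σ.1 τ.1 v none := by
  constructor
  · intro h g h1 h2
    rw [← h g h1 h2, h1]
  · intro h g h1 h2
    rw [h1]
    exact h g h1 h2

theorem T3_conn_right {L : ℕ} (σ τ : Pat L) (v : Vx L) :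
    Conn σ.1 τ.1 (τ.1 v) none ↔ Conn σ.1 τ.1 v none := by
  constructor
  · intro h g h1 h2
    rw [← h g h1 h2, h2]
  · intro h g h1 h2
    rw [h2]
    exact h g h1 h2

theorem flux_exists {L : ℕ} (σ τ : Pat L) (h : Vx L → Bool) (hh : Alt σ.1 τ.1 h) :
    ∃ φ : Vx L → ℤ, Flux σ φ ∧ Flux τ φ ∧ φ none = -1 ∧
      (∀ v, φ v = 1 → Conn σ.1 τ.1 v none ∧ h v ≠ h none) ∧
      (∀ v, Conn σ.1 τ.1 v none → φ v = if h v = h none then -1 else 1) := by
  classical
  have hnone : Conn σ.1 τ.1 none none := fun g _ _ => rfl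
  have hflip : ∀ a b : Bool, ((if (!a) = b then (-1 : ℤ) else 1)) = -(if a = b then -1 else 1) := by
    intro a b
    cases a <;> cases b <;> simp
  refine ⟨fun v => if Conn σ.1 τ.1 v none then (if h v = h none then -1 else 1) else 0,
    ?_, ?_, ?_, ?_, ?_⟩
  · intro v
    show (if Conn σ.1 τ.1 (σ.1 v) none then (if h (σ.1 v) = h none then (-1 : ℤ) else 1) else 0) =
      -(if Conn σ.1 τ.1 v none then (if h v = h none then -1 else 1) else 0)
    by_cases hc : Conn σ.1 τ.1 v none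
    · rw [if_pos hc, if_pos ((T3_conn_left σ τ v).2 hc), hh.1 v]
      exact hflip _ _
    · rw [if_neg hc, if_neg (fun h' => hc ((T3_conn_left σ τ v).1 h'))]
      rfl
  · intro v
    show (if Conn σ.1 τ.1 (τ.1 v) none then (if h (τ.1 v) = h none then (-1 : ℤ) else 1) else 0) =
      -(if Conn σ.1 τ.1 v none then (if h v = h none then -1 else 1) else 0)
    by_cases hc : Conn σ.1 τ.1 v none
    · rw [if_pos hc, if_pos ((T3_conn_right σ τ v).2 hc), hh.2 v]
      exact hflip _ _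
    · rw [if_neg hc, if_neg (fun h' => hc ((T3_conn_right σ τ v).1 h'))]
      rfl
  · show (if Conn σ.1 τ.1 none none then (if h none = h none then (-1 : ℤ) else 1) else 0) = -1
    rw [if_pos hnone, if_pos rfl]
  · intro v hv
    have hv' : (if Conn σ.1 τ.1 v none then (if h v = h none then (-1 : ℤ) else 1) else 0) = 1 := hv
    by_cases hc : Conn σ.1 τ.1 v none
    · rw [if_pos hc] at hv'
      refine ⟨hc, fun he => ?_⟩
      rw [if_pos he] at hv'
      exact absurd hv' (by norm_num)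
    · rw [if_neg hc] at hv'
      exact absurd hv' (by norm_num)
  · intro v hv
    show (if Conn σ.1 τ.1 v none then (if h v = h none then (-1 : ℤ) else 1) else 0) = _
    rw [if_pos hv]

theorem T3_CR_eq {m N : ℕ} {c : ℕ → Fin (m + 1) → Bool} {f : ℤ × ℕ → ℤ}
    (hf : ∀ a b, LK m N c a b → f a = f b) {a b : ℤ × ℕ} (h : CR m N c a b) : f a = f b := by
  induction h with
  | rel x y hxy => exact hf x y hxy
  | refl x => rfl
  | symm x y _ ih => exact ih.symm
  | trans x y z _ _ ih1 ih2 => exact ih1.trans ih2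

/-- the key computation -/
theorem T3_key {m M : ℕ} (c : ℕ → Fin (m + 1) → Bool) (σ τ : Pat (m + 1)) (j : ℤ)
    (h : CR m (2 * M) c (j + 1, M) (j + ((m : ℤ) + 1), M)) (g : Vx (m + 1) → Bool)
    (hg : Alt (rows m c M σ).1 (rows m (upr M c) M τ).1 g) :
    Conn (rows m c M σ).1 (rows m (upr M c) M τ).1 (some (izx m j)) none ∧
      g (some (izx m j)) ≠ g none := by
  obtain ⟨φ, h1, h2, h3, h4, -⟩ := flux_exists _ _ g hg
  obtain ⟨f, f1, f2, f3⟩ := flux_cover c σ τ φ h1 h2
  apply h4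
  have e1 := T3_CR_eq f1 h
  have e2 := f2 j M (by omega)
  have e3 := f3 j
  rw [h3] at e2
  rw [e2, e3] at e1
  linarith

theorem pr_of_CR {m M : ℕ} (c : ℕ → Fin (m + 1) → Bool) (σ τ : Pat (m + 1)) (j : ℤ)
    (h : CR m (2 * M) c (j + 1, M) (j + ((m : ℤ) + 1), M)) :
    pr (izx m j) (rows m c M σ) (rows m (upr M c) M τ) = 1 := by
  obtain ⟨g, hg⟩ := exists_alt (rows m c M σ).1 (rows m (upr M c) M τ).1
    (rows m c M σ).2.inv (rows m c M σ).2.nofix (rows m (upr M c) M τ).2.inv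
    (rows m (upr M c) M τ).2.nofix
  unfold pr
  exact if_pos (T3_key c σ τ j h g hg).1

theorem P4_of_CR {m M : ℕ} (c : ℕ → Fin (m + 1) → Bool) (σ τ : Pat (m + 1)) (j : ℤ)
    (h : CR m (2 * M) c (j + 1, M) (j + ((m : ℤ) + 1), M))
    (h' : CR m (2 * M) c (j + 2, M) (j + 1 + ((m : ℤ) + 1), M)) :
    P4 (izx m j) (izx m (j + 1)) (rows m c M σ) (rows m (upr M c) M τ) := by
  obtain ⟨g, hg⟩ := exists_alt (rows m c M σ).1 (rows m (upr M c) M τ).1
    (rows m c M σ).2.inv (rows m c M σ).2.nofix (rows m (upr M c) M τ).2.inv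
    (rows m (upr M c) M τ).2.nofix
  have h'' : CR m (2 * M) c (j + 1 + 1, M) (j + 1 + ((m : ℤ) + 1), M) := by
    have e : j + 1 + 1 = j + 2 := by ring
    rw [e]
    exact h'
  refine ⟨(T3_key c σ τ j h g hg).1, fun g' hg' => ?_⟩
  have a1 := (T3_key c σ τ j h g' hg').2
  have a2 := (T3_key c σ τ (j + 1) h'' g' hg').2
  revert a1 a2
  generalize g' (some (izx m j)) = x
  generalize g' (some (izx m (j + 1))) = y
  generalize g' none = z
  cases x <;> cases y <;> cases z <;> simp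

end Pool.Agent.H988R4
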