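import Pool.Agent.H974R3.Box
import Pool.Agent.H988R3.Defs4

/-!
# Transfer between the odd cylinder and the square lattice: definitions
-/

namespace Pool.Agent.H988R4
open Equiv Pool.Agent.H974R3 Pool.Agent.H988R3 H974

/-- flux (orientation) through the strands: alternating along the arcs -/
def Flux {L : ℕ} (σ : Pat L) (φ : Vx L → ℤ) : Prop := ∀ v, φ (σ.1 v) = -φ v

/-- local rules for the flux in a row of plaquettes: `B` upward flux below, `T` upward flux above,
`Hc p` rightward flux between the plaquettes `p` and `p+1` -/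
structure FRules (m : ℕ) (c : Fin (m + 1) → Bool) (B T Hc : Fin (m + 1) → ℤ) : Prop where
  f : ∀ n : ℕ, c (ix m (n + 1)) = false →
    B (ix m (n + 1)) = Hc (ix m (n + 1)) ∧ T (ix m (n + 1)) = Hc (ix m n)
  t : ∀ n : ℕ, c (ix m (n + 1)) = true →
    B (ix m (n + 1)) = -Hc (ix m n) ∧ T (ix m (n + 1)) = -Hc (ix m (n + 1))

/-- integers modulo `m+1` -/
def izx (m : ℕ) (j : ℤ) : Fin (m + 1) :=
  ⟨(j % ((m : ℤ) + 1)).toNat, by
    have h1 := Int.emod_nonneg j (show ((m : ℤ) + 1) ≠ 0 by omega)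
    have h2 := Int.emod_lt_of_pos j (show (0 : ℤ) < (m : ℤ) + 1 by omega)
    omega⟩

/-- link between faces of the universal cover (levels `0..N`), given the plaquette states:
face `(j,r)` is left of strand `j`; state `false` of plaquette `(j,r)` links `(j,r)` and
`(j+1,r+1)`, state `true` links `(j,r+1)` and `(j+1,r)` -/
def LK (m N : ℕ) (c : ℕ → Fin (m + 1) → Bool) (a b : ℤ × ℕ) : Prop :=
  ∃ (j : ℤ) (r : ℕ), r < N ∧
    ((c r (izx m j) = false ∧ a = (j, r) ∧ b = (j + 1, r + 1)) ∨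
      (c r (izx m j) = true ∧ a = (j, r + 1) ∧ b = (j + 1, r)))

/-- connection of faces in the universal cover -/
def CR (m N : ℕ) (c : ℕ → Fin (m + 1) → Bool) : ℤ × ℕ → ℤ × ℕ → Prop :=
  Relation.EqvGen (LK m N c)

/-- the upper rows, seen upside down -/
def upr {m : ℕ} (M : ℕ) (c : ℕ → Fin (m + 1) → Bool) : ℕ → Fin (m + 1) → Bool :=
  fun t j => !(c (2 * M - 1 - t) j)

/-- the four edges around the face `(0,0)` -/
def sq : Set Edg := {(0, 0, true), (1, 0, false), (0, 0, false), (0, 1, true)}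

/-- `x` is joined by `F` to distance `k` -/
def FarP (k : ℕ) (F : Set Edg) (x : Vtx) : Prop :=
  ∃ w : Vtx, Reach F x w ∧ (k : ℤ) ≤ |w.1| + |w.2|

/-- the face `x` is joined by dual paths in `G` to distance `k` -/
def FarD (k : ℕ) (G : Set Edg) (x : Vtx) : Prop :=
  ∃ w : Vtx, DReach G x w ∧ (k : ℤ) ≤ |w.1| + |w.2|

/-- four alternating arms to distance `k` from the face `(0,0)` cut in two: primal arms from
`(0,0)` and `(1,1)`, dual arms starting through the bottom or right edge, resp. through the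
left or top edge, and not using the four edges of the face again -/
def V4 (k : ℕ) (F G : Set Edg) : Prop :=
  FarP k F (0, 0) ∧ FarP k F (1, 1) ∧
  ((((0, 0, true) : Edg) ∈ G ∧ FarD k (G \ sq) (0, -1)) ∨
    (((1, 0, false) : Edg) ∈ G ∧ FarD k (G \ sq) (1, 0))) ∧
  ((((0, 0, false) : Edg) ∈ G ∧ FarD k (G \ sq) (-1, 0)) ∨
    (((0, 1, true) : Edg) ∈ G ∧ FarD k (G \ sq) (0, 1)))

end Pool.Agent.H988R4
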