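import Pool.Agent.H974R3.Box
import Pool.Agent.H988R3.P4Base
import Pool.Agent.H988R4.Defs

/-!
# From the stationary measure to the box: general lemmas (task T5)
-/

namespace Pool.Agent.H988R4
open Equiv Finset Pool.Agent.H974R3 Pool.Agent.H988R3
open H974 hiding SS

theorem T5_master (n M : ℕ) (μ : Pat (2 * n + 1) → ℝ)
    (hst : ∀ σ, ∑ c : Fin (2 * n + 1) → Bool, push (Tc (2 * n) c) μ σ
      = 2 ^ (2 * n + 1) * μ σ) (g : Pat (2 * n + 1) → Pat (2 * n + 1) → ℝ) :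
    ∑ F ∈ (SS n M).powerset, ∑ σ, ∑ τ, μ σ * μ τ *
        g (rows (2 * n) (cl n M F) M σ) (rows (2 * n) (cu n M F) M τ)
      = (2 ^ (2 * n + 1)) ^ M * ((2 ^ (2 * n + 1)) ^ M * ∑ σ, ∑ τ, μ σ * μ τ * g σ τ) := by
  set P : ℝ := (2 ^ (2 * n + 1)) ^ M with hP
  have e1 : ∑ a : Fin M → (Fin (2 * n + 1) → Bool), ∑ b : Fin M → (Fin (2 * n + 1) → Bool),
      ∑ σ, ∑ τ, μ σ * μ τ * g (rows (2 * n) (ext a) M σ) (rows (2 * n) (ext b) M τ)
      = P * (P * ∑ σ, ∑ τ, μ σ * μ τ * g σ τ) := by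
    have s1 : ∀ a : Fin M → (Fin (2 * n + 1) → Bool), ∑ b : Fin M → (Fin (2 * n + 1) → Bool),
      ∑ σ, ∑ τ, μ σ * μ τ * g (rows (2 * n) (ext a) M σ) (rows (2 * n) (ext b) M τ)
      = P * ∑ τ, μ τ * (∑ σ, μ σ * g (rows (2 * n) (ext a) M σ) τ) := by
      intro a
      rw [hP, ← rows_stat hst M
        (fun τ => ∑ σ, μ σ * g (rows (2 * n) (ext a) M σ) τ)]
      apply Finset.sum_congr rfl
      intro b _
      rw [Finset.sum_comm]
      apply Finset.sum_congr rfl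
      intro τ _
      rw [Finset.mul_sum]
      apply Finset.sum_congr rfl
      intro σ _
      ring
    simp only [s1]
    rw [← Finset.mul_sum]
    congr 1
    have s2 : ∑ a : Fin M → (Fin (2 * n + 1) → Bool),
        ∑ τ, μ τ * (∑ σ, μ σ * g (rows (2 * n) (ext a) M σ) τ)
        = ∑ a : Fin M → (Fin (2 * n + 1) → Bool),
          ∑ σ, μ σ * (fun σ' => ∑ τ, μ τ * g σ' τ) (rows (2 * n) (ext a) M σ) := by
      apply Finset.sum_congr rfl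
      intro a _
      simp only [Finset.mul_sum]
      rw [Finset.sum_comm]
      apply Finset.sum_congr rfl
      intro τ _
      apply Finset.sum_congr rfl
      intro σ _
      ring
    rw [s2, rows_stat hst M (fun σ' => ∑ τ, μ τ * g σ' τ), ← hP]
    congr 1
    apply Finset.sum_congr rfl
    intro σ _
    rw [Finset.mul_sum]
    apply Finset.sum_congr rfl
    intro τ _
    ring
  have e2 := sum_config (n := n) (M := M) (fun a b =>
    ∑ σ, ∑ τ, μ σ * μ τ * g (rows (2 * n) (ext a) M σ) (rows (2 * n) (ext b) M τ))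
  rw [e1] at e2
  rw [← e2]
  apply Finset.sum_congr rfl
  intro F _
  have r1 : ∀ σ, rows (2 * n) (ext (fun t : Fin M => cl n M F t)) M σ
      = rows (2 * n) (cl n M F) M σ := fun σ => rows_congr (fun t ht => by
    unfold H974R3.ext; rw [dif_pos ht]) σ
  have r2 : ∀ σ, rows (2 * n) (ext (fun t : Fin M => cu n M F t)) M σ
      = rows (2 * n) (cu n M F) M σ := fun σ => rows_congr (fun t ht => by
    unfold H974R3.ext; rw [dif_pos ht]) σ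
  simp only [r1, r2]

theorem T5_norm (n M : ℕ) :
    (1/2 : ℝ) ^ ((2 * n + 1) * (2 * M)) * ((2 ^ (2 * n + 1)) ^ M * (2 ^ (2 * n + 1)) ^ M) = 1 := by
  rw [← pow_mul, ← pow_add, one_div, inv_pow,
    show (2 * n + 1) * (2 * M) = (2 * n + 1) * M + (2 * n + 1) * M by ring]
  exact inv_mul_cancel₀ (by positivity)

theorem T5_upper (n M : ℕ) (μ : Pat (2 * n + 1) → ℝ) (hμ : ∑ σ, μ σ = 1)
    (h0 : ∀ σ, 0 ≤ μ σ)
    (hst : ∀ σ, ∑ c : Fin (2 * n + 1) → Bool, push (Tc (2 * n) c) μ σ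
      = 2 ^ (2 * n + 1) * μ σ) (g : Pat (2 * n + 1) → Pat (2 * n + 1) → ℝ)
    (g1 : ∀ σ τ, g σ τ ≤ 1) (A : Finset Edg → Prop)
    (hA : ∀ F, F ⊆ SS n M → ¬ A F → ∀ σ τ : Pat (2 * n + 1),
      g (rows (2 * n) (cl n M F) M σ) (rows (2 * n) (cu n M F) M τ) = 0) :
    ∑ σ, ∑ τ, μ σ * μ τ * g σ τ ≤ Pr (fun _ => 1/2) (SS n M) A := by
  have hm := T5_master n M μ hst g
  have e3 : ∑ F ∈ (SS n M).powerset, ∑ σ, ∑ τ, μ σ * μ τ *
        g (rows (2 * n) (cl n M F) M σ) (rows (2 * n) (cu n M F) M τ)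
      ≤ ∑ F ∈ (SS n M).powerset, ind (A F) := by
    apply Finset.sum_le_sum
    intro F hF
    have hF' := Finset.mem_powerset.1 hF
    by_cases hAF : A F
    · rw [ind_of hAF]
      calc ∑ σ, ∑ τ, μ σ * μ τ *
            g (rows (2 * n) (cl n M F) M σ) (rows (2 * n) (cu n M F) M τ)
          ≤ ∑ σ, ∑ τ, μ σ * μ τ := by
            apply Finset.sum_le_sum; intro σ _
            apply Finset.sum_le_sum; intro τ _
            have h2 := mul_nonneg (h0 σ) (h0 τ)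
            have := mul_le_mul_of_nonneg_left (g1 (rows (2 * n) (cl n M F) M σ)
              (rows (2 * n) (cu n M F) M τ)) h2
            simpa using this
        _ = 1 := by
            simp only [← Finset.mul_sum, hμ, mul_one]
    · rw [ind_not_of hAF]
      apply le_of_eq
      apply Finset.sum_eq_zero; intro σ _
      apply Finset.sum_eq_zero; intro τ _
      rw [hA F hF' hAF]; simp
  rw [hm] at e3
  rw [Pr_half, card_SS]
  have e4 := T5_norm n M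
  calc ∑ σ, ∑ τ, μ σ * μ τ * g σ τ
      = (1/2 : ℝ) ^ ((2 * n + 1) * (2 * M)) * ((2 ^ (2 * n + 1)) ^ M * (2 ^ (2 * n + 1)) ^ M)
          * ∑ σ, ∑ τ, μ σ * μ τ * g σ τ := by rw [e4, one_mul]
    _ = (1/2 : ℝ) ^ ((2 * n + 1) * (2 * M)) *
          ((2 ^ (2 * n + 1)) ^ M * ((2 ^ (2 * n + 1)) ^ M * ∑ σ, ∑ τ, μ σ * μ τ * g σ τ)) := by
        ring
    _ ≤ _ := mul_le_mul_of_nonneg_left e3 (by positivity)

theorem T5_lower (n M : ℕ) (μ : Pat (2 * n + 1) → ℝ) (hμ : ∑ σ, μ σ = 1)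
    (h0 : ∀ σ, 0 ≤ μ σ)
    (hst : ∀ σ, ∑ c : Fin (2 * n + 1) → Bool, push (Tc (2 * n) c) μ σ
      = 2 ^ (2 * n + 1) * μ σ) (g : Pat (2 * n + 1) → Pat (2 * n + 1) → ℝ)
    (g0 : ∀ σ τ, 0 ≤ g σ τ) (A : Finset Edg → Prop)
    (hA : ∀ F, F ⊆ SS n M → A F → ∀ σ τ : Pat (2 * n + 1),
      g (rows (2 * n) (cl n M F) M σ) (rows (2 * n) (cu n M F) M τ) = 1) :
    Pr (fun _ => 1/2) (SS n M) A ≤ ∑ σ, ∑ τ, μ σ * μ τ * g σ τ := by
  have hm := T5_master n M μ hst g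
  have e3 : ∑ F ∈ (SS n M).powerset, ind (A F) ≤
      ∑ F ∈ (SS n M).powerset, ∑ σ, ∑ τ, μ σ * μ τ *
        g (rows (2 * n) (cl n M F) M σ) (rows (2 * n) (cu n M F) M τ) := by
    apply Finset.sum_le_sum
    intro F hF
    have hF' := Finset.mem_powerset.1 hF
    by_cases hAF : A F
    · rw [ind_of hAF]
      simp only [hA F hF' hAF, mul_one]
      apply le_of_eq
      simp only [← Finset.mul_sum, hμ, mul_one]
    · rw [ind_not_of hAF]
      apply Finset.sum_nonneg; intro σ _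
      apply Finset.sum_nonneg; intro τ _
      exact mul_nonneg (mul_nonneg (h0 σ) (h0 τ)) (g0 _ _)
  rw [hm] at e3
  rw [Pr_half, card_SS]
  have e4 := T5_norm n M
  calc _ ≤ (1/2 : ℝ) ^ ((2 * n + 1) * (2 * M)) *
          ((2 ^ (2 * n + 1)) ^ M * ((2 ^ (2 * n + 1)) ^ M * ∑ σ, ∑ τ, μ σ * μ τ * g σ τ)) :=
        mul_le_mul_of_nonneg_left e3 (by positivity)
    _ = (1/2 : ℝ) ^ ((2 * n + 1) * (2 * M)) * ((2 ^ (2 * n + 1)) ^ M * (2 ^ (2 * n + 1)) ^ M)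
          * ∑ σ, ∑ τ, μ σ * μ τ * g σ τ := by ring
    _ = ∑ σ, ∑ τ, μ σ * μ τ * g σ τ := by rw [e4, one_mul]

theorem T5_pr4_nonneg {L : ℕ} (a b : Fin L) (σ τ : Pat L) : 0 ≤ (pr4 a b σ τ).re := by
  unfold pr4; split_ifs <;> simp

theorem T5_pr4_le_one {L : ℕ} (a b : Fin L) (σ τ : Pat L) : (pr4 a b σ τ).re ≤ 1 := by
  unfold pr4; split_ifs <;> simp

/-- the value does not depend on the strand -/
theorem T5_value_rot (n : ℕ) (μ : Pat (2 * n + 1) → ℝ) (hr : ∀ σ, μ (rot (2 * n) σ) = μ σ)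
    (a b : Fin (2 * n + 1)) :
    (∑ σ, ∑ τ, (pr4 (finRotate (2 * n + 1) a) (finRotate (2 * n + 1) b) σ τ).re * μ σ * μ τ) =
      ∑ σ, ∑ τ, (pr4 a b σ τ).re * μ σ * μ τ := by
  set e : Pat (2 * n + 1) ≃ Pat (2 * n + 1) :=
    ⟨rot (2 * n), rotInv (2 * n), rotInv_rot (2 * n), rot_rotInv (2 * n)⟩ with he
  rw [← Equiv.sum_comp e]
  refine Finset.sum_congr rfl fun σ _ => ?_
  rw [← Equiv.sum_comp e]
  refine Finset.sum_congr rfl fun τ _ => ?_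
  have h1 : e σ = rot (2 * n) σ := rfl
  have h2 : e τ = rot (2 * n) τ := rfl
  rw [h1, h2, hr, hr, pr4_rot]

theorem T5_value_all (n : ℕ) (μ : Pat (2 * n + 1) → ℝ) (hr : ∀ σ, μ (rot (2 * n) σ) = μ σ)
    (k : ℕ) (hk : k + 1 < 2 * n + 1) :
    (∑ σ, ∑ τ, (pr4 (⟨k, by omega⟩ : Fin (2 * n + 1)) ⟨k + 1, hk⟩ σ τ).re * μ σ * μ τ) =
      ∑ σ, ∑ τ, (pr4 (ix (2 * n) 0) (ix (2 * n) 1) σ τ).re * μ σ * μ τ := by
  induction k with
  | zero =>
    have h1 : (⟨0, by omega⟩ : Fin (2 * n + 1)) = ix (2 * n) 0 := by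
      apply Fin.ext; simp [ix]
    have h2 : (⟨0 + 1, hk⟩ : Fin (2 * n + 1)) = ix (2 * n) 1 := by
      apply Fin.ext
      simp only [ix]
      rw [Nat.mod_eq_of_lt (by omega)]
    rw [h1, h2]
  | succ k ih =>
    rw [← ih (by omega), ← T5_value_rot n μ hr ⟨k, by omega⟩ ⟨k + 1, by omega⟩]
    have h : finRotate (2 * n + 1) ⟨k, by omega⟩ = ⟨k + 1, by omega⟩ := by
      rw [finRotate_of_lt (by omega)]
    have h' : finRotate (2 * n + 1) ⟨k + 1, by omega⟩ = ⟨k + 1 + 1, hk⟩ := by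
      rw [finRotate_of_lt (by omega)]
    rw [h, h']

/-- the value at the strands `n`, `n+1` -/
theorem T5_value_mid (n : ℕ) (hn : 1 ≤ n)
    (hval : ∀ μ : Pat (2 * n + 1) → ℝ, ∑ σ, μ σ = 1 →
      (∀ σ, ∑ c : Fin (2 * n + 1) → Bool, push (Tc (2 * n) c) μ σ
        = 2 ^ (2 * n + 1) * μ σ) →
      (∑ σ, ∑ τ, (pr4 (ix (2 * n) 0) (ix (2 * n) 1) σ τ).re * μ σ * μ τ : ℝ) = p4val n) :
    ∃ μ : Pat (2 * n + 1) → ℝ, (∀ σ, 0 ≤ μ σ) ∧ ∑ σ, μ σ = 1 ∧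
      (∀ σ, ∑ c : Fin (2 * n + 1) → Bool, push (Tc (2 * n) c) μ σ = 2 ^ (2 * n + 1) * μ σ) ∧
      (∑ σ, ∑ τ, μ σ * μ τ * (pr4 (⟨n, by omega⟩ : Fin (2 * n + 1))
        (⟨n + 1, by omega⟩ : Fin (2 * n + 1)) σ τ).re) = p4val n := by
  obtain ⟨μ, h0, h1, h2, _, h4⟩ := markov_exists n
  refine ⟨μ, h0, h1, h2, ?_⟩
  rw [← hval μ h1 h2, ← T5_value_all n μ h4 n (by omega)]
  refine Finset.sum_congr rfl fun σ _ => ?_
  refine Finset.sum_congr rfl fun τ _ => ?_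
  ring

end Pool.Agent.H988R4
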