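import Pool.Agent.H988R4.Defs

/-!
# T1: pull back of a flux through one row of plaquettes
-/

namespace Pool.Agent.H988R4
open Equiv Pool.Agent.H974R3 Pool.Agent.H988R3
open H974 hiding SS

namespace FluxRow

/-- pull back of a flux through a generator -/
theorem pull {α : Type*} [DecidableEq α] {a b : α} (hab : a ≠ b) {σ : Perm α}
    (hi : ∀ v, σ (σ v) = v) (hn : ∀ v, σ v ≠ v) {φ : α → ℤ}
    (hφ : ∀ v, φ (join a b σ v) = -φ v) :
    ∃ ψ : α → ℤ, (∀ v, ψ (σ v) = -ψ v) ∧ ψ b = -ψ a ∧ φ b = -φ a ∧
      ∀ v, v ≠ a → v ≠ b → ψ v = φ v := by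
  have ja : join a b σ a = b := by
    unfold join
    simp only [Perm.mul_apply]
    rw [swap_apply_of_ne_of_ne hab (hn a).symm, swap_apply_right]
  have hsab : σ b ≠ σ a := fun h => hab (σ.injective h).symm
  have jsa : join a b σ (σ a) = σ b := by
    unfold join
    simp only [Perm.mul_apply]
    rw [swap_apply_right, swap_apply_of_ne_of_ne (hn b) hsab]
  have hb : φ b = -φ a := by rw [← ja]; exact hφ a
  have hsb : φ (σ b) = -φ (σ a) := by rw [← jsa]; exact hφ (σ a)
  refine ⟨fun v => if v = a then -φ (σ a) else if v = b then -φ (σ b) else φ v, ?_, ?_, hb, ?_⟩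
  · intro v
    simp only []
    by_cases hva : v = a
    · subst hva
      rw [if_neg (hn v), if_pos rfl]
      by_cases h : σ v = b
      · have h2 : σ b = v := by rw [← h, hi]
        rw [if_pos h, h2, h, hb, neg_neg]
      · rw [if_neg h]; ring
    · by_cases hvb : v = b
      · subst hvb
        rw [if_neg hva, if_pos rfl]
        by_cases h : σ v = a
        · have h2 : σ a = v := by rw [← h, hi]
          rw [if_pos h, h2, h, hb]
        · rw [if_neg h, if_neg (hn v)]; ring
      · rw [if_neg hva, if_neg hvb]
        by_cases h1 : σ v = a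
        · rw [if_pos h1, ← h1, hi]
        · rw [if_neg h1]
          by_cases h2 : σ v = b
          · rw [if_pos h2, ← h2, hi]
          · rw [if_neg h2, ← hφ v]
            congr 1
            have e1 : v ≠ σ a := fun h => h1 (by rw [h, hi])
            have e2 : σ v ≠ σ a := fun h => hva (σ.injective h)
            unfold join
            simp only [Perm.mul_apply]
            rw [swap_apply_of_ne_of_ne hvb e1, swap_apply_of_ne_of_ne h2 e2]
  · simp [hab.symm, hsb]
  · intro v h1 h2
    simp only []
    rw [if_neg h1, if_neg h2]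

/-- one step of the row -/
def Step (m : ℕ) (c : Fin (m + 1) → Bool) (k j : ℕ) (l l' : Vx (m + 1) → ℤ) : Prop :=
  (c (ix m (k + j + 1)) = true → l (some (ix m (k + j + 1))) = -l (some (ix m (k + j))) ∧
    l' (some (ix m (k + j + 1))) = -l' (some (ix m (k + j)))) ∧
  (c (ix m (k + j + 1)) = false → l = l') ∧
  ∀ v, v ≠ some (ix m (k + j)) → v ≠ some (ix m (k + j + 1)) → l v = l' v

theorem ix_ne {m : ℕ} {k i : ℕ} (hk : k < m + 1) (hi : i < m) :
    ix m (k + i) ≠ ix m (k + i + 1) := by
  intro h
  have r1 := CMP.rel_ix (m := m) (k := k) (i := i) hk (by omega)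
  have r2 := CMP.rel_ix (m := m) (k := k) (i := i + 1) hk (by omega)
  rw [← add_assoc, ← h, r1] at r2
  omega

theorem word_pull {m : ℕ} (c : Fin (m + 1) → Bool) (s : Pat (m + 1)) {k : ℕ} (hk : k < m + 1)
    (i : ℕ) (hi : i ≤ m) (φ : Vx (m + 1) → ℤ) (h : Flux (word m c k i s) φ) :
    ∃ l : ℕ → Vx (m + 1) → ℤ, l i = φ ∧ Flux s (l 0) ∧
      ∀ j < i, Step m c k j (l j) (l (j + 1)) := by
  induction i generalizing φ with
  | zero => exact ⟨fun _ => φ, rfl, h, fun j hj => absurd hj (Nat.not_lt_zero j)⟩
  | succ i ih =>
    obtain ⟨ψ, hψ, hstep⟩ : ∃ ψ, Flux (word m c k i s) ψ ∧ Step m c k i ψ φ := by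
      unfold word at h
      by_cases hc : c (ix m (k + i + 1)) = true
      · rw [if_pos hc] at h
        have hne : (some (ix m (k + i)) : Vx (m + 1)) ≠ some (ix m (k + i + 1)) := fun h =>
          ix_ne hk (by omega) (Option.some.inj h)
        obtain ⟨ψ, h1, h2, h3, h4⟩ := pull hne (word m c k i s).2.inv (word m c k i s).2.nofix
          (φ := φ) (fun v => by rw [← E_val]; exact h v)
        exact ⟨ψ, h1, fun _ => ⟨h2, h3⟩, fun hf => by rw [hc] at hf; exact absurd hf (by simp),
          h4⟩
      · rw [if_neg hc] at h
        exact ⟨φ, h, fun hf => absurd hf hc, fun _ => rfl, fun _ _ _ => rfl⟩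
    obtain ⟨l, hl, hl0, hls⟩ := ih (by omega) ψ hψ
    refine ⟨fun j => if j = i + 1 then φ else l j, if_pos rfl, ?_, ?_⟩
    · simp only []
      rw [if_neg (by omega)]
      exact hl0
    · intro j hj
      simp only []
      rw [if_neg (by omega : ¬ j = i + 1)]
      by_cases hji : j = i
      · subst hji
        rw [if_pos rfl, hl]
        exact hstep
      · rw [if_neg (by omega : ¬ j + 1 = i + 1)]
        exact hls j (by omega)

/-- values do not change before the step reaches a position -/
theorem before {m : ℕ} {c : Fin (m + 1) → Bool} {k : ℕ} (hk : k < m + 1)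
    {l : ℕ → Vx (m + 1) → ℤ} (hl : ∀ j < m, Step m c k j (l j) (l (j + 1))) (q : ℕ) (hq : q ≤ m)
    (j : ℕ) (hj : j < q) : l j (some (ix m (k + q))) = l 0 (some (ix m (k + q))) := by
  induction j with
  | zero => rfl
  | succ j ih =>
    rw [← ih (by omega)]
    symm
    apply (hl j (by omega)).2.2
    · intro h
      have h2 := congrArg (CMP.rel m k) (Option.some.inj h)
      rw [CMP.rel_ix hk (by omega), CMP.rel_ix hk (by omega)] at h2
      omega
    · intro h
      have h2 := congrArg (CMP.rel m k) (Option.some.inj h)
      rw [add_assoc, CMP.rel_ix hk (by omega), CMP.rel_ix hk (by omega)] at h2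
      omega

/-- values do not change after the step has passed a position -/
theorem after {m : ℕ} {c : Fin (m + 1) → Bool} {k : ℕ} (hk : k < m + 1)
    {l : ℕ → Vx (m + 1) → ℤ} (hl : ∀ j < m, Step m c k j (l j) (l (j + 1))) (q : ℕ)
    (d : ℕ) (hj : q + 1 + d ≤ m) : l (q + 1) (some (ix m (k + q))) =
      l (q + 1 + d) (some (ix m (k + q))) := by
  induction d with
  | zero => rfl
  | succ d ih =>
    rw [ih (by omega)]
    apply (hl (q + 1 + d) (by omega)).2.2
    · intro h
      have h2 := congrArg (CMP.rel m k) (Option.some.inj h)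
      rw [CMP.rel_ix hk (by omega), CMP.rel_ix hk (by omega)] at h2
      omega
    · intro h
      have h2 := congrArg (CMP.rel m k) (Option.some.inj h)
      rw [add_assoc k, CMP.rel_ix hk (by omega), CMP.rel_ix hk (by omega)] at h2
      omega

theorem at_none {m : ℕ} {c : Fin (m + 1) → Bool} {k : ℕ}
    {l : ℕ → Vx (m + 1) → ℤ} (hl : ∀ j < m, Step m c k j (l j) (l (j + 1)))
    (j : ℕ) (hj : j ≤ m) : l j none = l 0 none := by
  induction j with
  | zero => rfl
  | succ j ih =>
    rw [← ih (by omega)]
    symm
    apply (hl j (by omega)).2.2 <;> simp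

end FluxRow

open FluxRow in
theorem flux_row {m : ℕ} (c : Fin (m + 1) → Bool) (s : Pat (m + 1)) (φ : Vx (m + 1) → ℤ)
    (h : Flux (Tc m c s) φ) : ∃ (ψ : Vx (m + 1) → ℤ) (Hc : Fin (m + 1) → ℤ),
      Flux s ψ ∧ ψ none = φ none ∧
      FRules m c (fun p => ψ (some p)) (fun p => φ (some p)) Hc := by
  unfold Tc at h
  split_ifs at h with hex
  · set k := Nat.find hex with hkdef
    have hk := (Nat.find_spec hex).1
    have hck := (Nat.find_spec hex).2
    rw [← hkdef] at hk hck
    have hm : Flux (word m c k m s) (fun v => φ (rotV m v)) := by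
      intro v
      have h1 := h (rotV m v)
      rw [rot_val] at h1
      simp only [Perm.mul_apply] at h1
      have e : (rotV m)⁻¹ (rotV m v) = v := (rotV m).symm_apply_apply v
      rw [e] at h1
      exact h1
    obtain ⟨l, hlm, hl0, hls⟩ := word_pull c s hk m le_rfl _ hm
    have hrot : ∀ n : ℕ, φ (some (ix m (n + 1))) = l m (some (ix m n)) := by
      intro n
      rw [hlm]
      show _ = φ (rotV m (some (ix m n)))
      rw [CMP.rotV_some]
      congr 2
      apply CMP.ix_congr
      exact (Nat.mod_add_mod n (m + 1) 1).symm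
    have hper : ∀ n : ℕ, ix m (n + (m + 1)) = ix m n := fun n =>
      CMP.ix_congr (Nat.add_mod_right n (m + 1))
    refine ⟨l 0, fun p => l (CMP.rel m k p) (some p), hl0, ?_, ?_⟩
    · rw [← at_none hls m le_rfl, hlm]
      show φ (rotV m none) = φ none
      rw [CMP.rotV_none]
    · -- every position is `k + q`
      have hpos : ∀ n : ℕ, (ix m (n + 1) = ix m k ∧ ix m n = ix m (k + m)) ∨
          ∃ j < m, ix m (n + 1) = ix m (k + j + 1) ∧ ix m n = ix m (k + j) := by
        intro n
        have hr := CMP.rel_lt m k (ix m n)
        have h1 := CMP.ix_rel hk (ix m n)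
        by_cases hrm : CMP.rel m k (ix m n) = m
        · left
          rw [hrm] at h1
          refine ⟨?_, h1.symm⟩
          have h2 : n % (m + 1) = (k + m) % (m + 1) := by
            have := congrArg Fin.val h1
            rw [CMP.ix_val, CMP.ix_val] at this
            exact this.symm
          rw [← hper k]
          apply CMP.ix_congr
          rw [show k + (m + 1) = (k + m) + 1 by omega, Nat.add_mod n, h2, ← Nat.add_mod]
        · right
          refine ⟨CMP.rel m k (ix m n), by omega, ?_, h1.symm⟩
          have h2 : n % (m + 1) = (k + CMP.rel m k (ix m n)) % (m + 1) := by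
            have := congrArg Fin.val h1
            rw [CMP.ix_val, CMP.ix_val] at this
            exact this.symm
          apply CMP.ix_congr
          rw [Nat.add_mod n, h2, ← Nat.add_mod]
      constructor
      · intro n hn
        rcases hpos n with ⟨e1, e2⟩ | ⟨j, hj, e1, e2⟩
        · refine ⟨?_, ?_⟩
          · show l 0 (some (ix m (n + 1))) = l (CMP.rel m k (ix m (n + 1))) (some (ix m (n + 1)))
            rw [e1]
            have := CMP.rel_ix (m := m) (k := k) (i := 0) hk (by omega)
            rw [add_zero] at this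
            rw [this]
          · show φ (some (ix m (n + 1))) = l (CMP.rel m k (ix m n)) (some (ix m n))
            rw [hrot, e2, CMP.rel_ix hk (by omega)]
        · have hst := hls j hj
          rw [e1] at hn
          have hll := hst.2.1 hn
          refine ⟨?_, ?_⟩
          · show l 0 (some (ix m (n + 1))) = l (CMP.rel m k (ix m (n + 1))) (some (ix m (n + 1)))
            rw [e1, add_assoc, CMP.rel_ix hk (by omega), ← hll]
            exact (before hk hls (j + 1) (by omega) j (by omega)).symm
          · show φ (some (ix m (n + 1))) = l (CMP.rel m k (ix m n)) (some (ix m n))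
            rw [hrot, e2, CMP.rel_ix hk (by omega), hll]
            have := after hk hls j (m - (j + 1)) (by omega)
            rw [show j + 1 + (m - (j + 1)) = m by omega] at this
            exact this.symm
      · intro n hn
        rcases hpos n with ⟨e1, e2⟩ | ⟨j, hj, e1, e2⟩
        · rw [e1] at hn
          rw [hn] at hck
          exact absurd hck (by simp)
        · have hst := hls j hj
          rw [e1] at hn
          obtain ⟨s1, s2⟩ := hst.1 hn
          refine ⟨?_, ?_⟩
          · show l 0 (some (ix m (n + 1))) = -l (CMP.rel m k (ix m n)) (some (ix m n))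
            rw [e1, e2, CMP.rel_ix hk (by omega), ← s1]
            exact (before hk hls (j + 1) (by omega) j (by omega)).symm
          · show φ (some (ix m (n + 1))) =
              -l (CMP.rel m k (ix m (n + 1))) (some (ix m (n + 1)))
            rw [hrot, e1, e2]
            rw [show CMP.rel m k (ix m (k + j + 1)) = j + 1 by
              rw [add_assoc, CMP.rel_ix hk (by omega)]]
            rw [s2, neg_neg]
            have := after hk hls j (m - (j + 1)) (by omega)
            rw [show j + 1 + (m - (j + 1)) = m by omega] at this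
            exact this.symm
  · have hrot : ∀ n : ℕ, rotV m (some (ix m n)) = some (ix m (n + 1)) := by
      intro n
      rw [CMP.rotV_some]
      congr 1
      apply CMP.ix_congr
      exact Nat.mod_add_mod n (m + 1) 1
    have hall : ∀ n : ℕ, c (ix m n) = true := by
      intro n
      by_contra hc
      apply hex
      refine ⟨n % (m + 1), Nat.mod_lt _ (Nat.succ_pos m), ?_⟩
      rw [CMP.ix_congr (Nat.mod_mod n (m + 1))]
      simpa using hc
    refine ⟨fun w => φ ((rotV m).symm w), fun p => -φ (some p), ?_, ?_, ?_, ?_⟩
    · intro w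
      have h1 := h ((rotV m).symm w)
      rw [rotInv_val] at h1
      simp only [Perm.mul_apply] at h1
      rw [(rotV m).apply_symm_apply] at h1
      exact h1
    · show φ ((rotV m).symm none) = φ none
      rw [show (rotV m).symm none = none by rw [Equiv.symm_apply_eq, CMP.rotV_none]]
    · intro n hn
      rw [hall] at hn
      exact absurd hn (by simp)
    · intro n hn
      refine ⟨?_, ?_⟩
      · show φ ((rotV m).symm (some (ix m (n + 1)))) = - -φ (some (ix m n))
        rw [neg_neg]
        congr 1
        rw [Equiv.symm_apply_eq, hrot]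
      · show φ (some (ix m (n + 1))) = - -φ (some (ix m (n + 1)))
        rw [neg_neg]

end Pool.Agent.H988R4
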