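import Pool.Agent.H988R4.CoverGen
import Pool.Agent.H988R4.FluxRow

/-!
# Height functions on the faces of the universal cover (task T2)
-/

namespace Pool.Agent.H988R4
open Equiv Pool.Agent.H974R3 Pool.Agent.H988R3
open H974 hiding SS

/-- height function on the faces of the universal cover of the lower half cylinder -/
theorem flux_half {m M : ℕ} (c : ℕ → Fin (m + 1) → Bool) (σ : Pat (m + 1))
    (φ : Vx (m + 1) → ℤ) (h : Flux (rows m c M σ) φ) :
    ∃ f : ℤ × ℕ → ℤ, (∀ a b, LK m M c a b → f a = f b) ∧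
      (∀ j r, r ≤ M → f (j + ((m : ℤ) + 1), r) = f (j, r) - φ none) ∧
      (∀ j, f (j + 1, M) = f (j, M) + φ (some (izx m j))) ∧ f (0, M) = 0 :=
  flux_half_of (fun c s φ h => flux_row c s φ h) c σ φ h

theorem flux_cover {m M : ℕ} (c : ℕ → Fin (m + 1) → Bool) (σ τ : Pat (m + 1))
    (φ : Vx (m + 1) → ℤ) (h1 : Flux (rows m c M σ) φ) (h2 : Flux (rows m (upr M c) M τ) φ) :
    ∃ f : ℤ × ℕ → ℤ, (∀ a b, LK m (2 * M) c a b → f a = f b) ∧
      (∀ j r, r ≤ 2 * M → f (j + ((m : ℤ) + 1), r) = f (j, r) - φ none) ∧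
      ∀ j, f (j + 1, M) = f (j, M) + φ (some (izx m j)) :=
  flux_cover_of (fun c s φ h => flux_row c s φ h) c σ τ φ h1 h2

end Pool.Agent.H988R4
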