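import Pool.Agent.H988R4.Defs

/-!
# Height functions on the faces of the universal cover (task T2)
-/

namespace Pool.Agent.H988R4
open Equiv Pool.Agent.H974R3 Pool.Agent.H988R3
open H974 hiding SS

/-- the statement of task T1 -/
def FluxRowSt : Prop :=
  ∀ {m : ℕ} (c : Fin (m + 1) → Bool) (s : Pat (m + 1)) (φ : Vx (m + 1) → ℤ)
    (_ : Flux (Tc m c s) φ), ∃ (ψ : Vx (m + 1) → ℤ) (Hc : Fin (m + 1) → ℤ),
      Flux s ψ ∧ ψ none = φ none ∧
      FRules m c (fun p => ψ (some p)) (fun p => φ (some p)) Hc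

/-- a function on `ℤ` with prescribed differences -/
theorem exists_sum (g : ℤ → ℤ) : ∃ F : ℤ → ℤ, F 0 = 0 ∧ (∀ j, F (j + 1) = F j + g j) ∧
    ∀ n : ℕ, F n = ∑ i ∈ Finset.range n, g i := by
  refine ⟨fun j => if 0 ≤ j then ∑ i ∈ Finset.range j.toNat, g i else
    -∑ i ∈ Finset.range (-j).toNat, g (-(i : ℤ) - 1), by simp, ?_, ?_⟩
  · intro j
    rcases lt_trichotomy j (-1) with h | h | h
    · have h1 : ¬ (0 ≤ j + 1) := by omega
      have h2 : ¬ (0 ≤ j) := by omega
      simp only [h1, h2, if_false]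
      obtain ⟨k, hk⟩ : ∃ k : ℕ, (-j).toNat = k + 1 := ⟨(-j).toNat - 1, by omega⟩
      have hk' : (-(j + 1)).toNat = k := by omega
      rw [hk, hk', Finset.sum_range_succ]
      have : -(k : ℤ) - 1 = j := by omega
      rw [this]
      ring
    · subst h
      simp
    · have h1 : 0 ≤ j + 1 := by omega
      have h2 : 0 ≤ j := by omega
      simp only [h1, h2, if_true]
      have hk : (j + 1).toNat = j.toNat + 1 := by omega
      rw [hk, Finset.sum_range_succ]
      have : ((j.toNat : ℕ) : ℤ) = j := by omega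
      rw [this]
  · intro n
    have h : (0 : ℤ) ≤ (n : ℤ) := by omega
    simp only [h, if_true, Int.toNat_natCast]

/-- two functions on `ℤ` with the same differences -/
theorem eq_of_diff {F G : ℤ → ℤ} (h0 : F 0 = G 0) (h : ∀ j, F (j + 1) - F j = G (j + 1) - G j)
    (j : ℤ) : F j = G j := by
  induction j using Int.induction_on with
  | zero => exact h0
  | succ i ih => have := h i; linarith
  | pred i ih =>
    have := h (-(i : ℤ) - 1)
    rw [show -(i : ℤ) - 1 + 1 = -i by ring] at this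
    linarith

theorem izx_add (m : ℕ) (j : ℤ) : izx m (j + ((m : ℤ) + 1)) = izx m j := by
  unfold izx
  apply Fin.ext
  simp only [Int.add_emod_right]

theorem izx_nat (m n : ℕ) : izx m (n : ℤ) = ix m n := by
  unfold izx ix
  apply Fin.ext
  simp only
  have : ((n : ℤ) % ((m : ℤ) + 1)) = ((n % (m + 1) : ℕ) : ℤ) := by push_cast; rfl
  rw [this, Int.toNat_natCast]

theorem izx_congr {m : ℕ} {i j : ℤ} (h : i % ((m : ℤ) + 1) = j % ((m : ℤ) + 1)) :
    izx m i = izx m j := by
  unfold izx
  apply Fin.ext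
  simp only [h]

/-- the index of a strand, as a successor -/
theorem exists_ix (m : ℕ) (j : ℤ) : ∃ n : ℕ, izx m j = ix m (n + 1) ∧ izx m (j - 1) = ix m n := by
  have hL : (0 : ℤ) < (m : ℤ) + 1 := by omega
  have h1 := Int.emod_nonneg (j - 1) hL.ne'
  refine ⟨((j - 1) % ((m : ℤ) + 1)).toNat, ?_, ?_⟩
  · rw [← izx_nat]
    apply izx_congr
    push_cast
    rw [Int.toNat_of_nonneg h1, Int.emod_add_emod]
    congr 1
    ring
  · rw [← izx_nat]
    apply izx_congr
    rw [Int.toNat_of_nonneg h1, Int.emod_emod]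

theorem sum_flux {L : ℕ} {σ : Pat L} {φ : Vx L → ℤ} (h : Flux σ φ) :
    ∑ p : Fin L, φ (some p) = -φ none := by
  have h1 : ∑ v, φ (σ.1 v) = ∑ v, φ v := Equiv.sum_comp σ.1 φ
  have h2 : ∑ v, φ (σ.1 v) = -∑ v, φ v := by
    rw [← Finset.sum_neg_distrib]
    exact Finset.sum_congr rfl fun v _ => h v
  have h3 : ∑ v, φ v = 0 := by omega
  rw [Fintype.sum_option] at h3
  linarith

/-- the height function of one level -/
theorem exists_level {m : ℕ} {σ : Pat (m + 1)} {φ : Vx (m + 1) → ℤ} (h : Flux σ φ) :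
    ∃ F : ℤ → ℤ, F 0 = 0 ∧ (∀ j, F (j + 1) = F j + φ (some (izx m j))) ∧
      ∀ j, F (j + ((m : ℤ) + 1)) = F j - φ none := by
  obtain ⟨F, h0, h1, h2⟩ := exists_sum (fun j => φ (some (izx m j)))
  refine ⟨F, h0, h1, ?_⟩
  have hs : F ((m : ℤ) + 1) = -φ none := by
    have := h2 (m + 1)
    push_cast at this
    rw [this, ← sum_flux h, Finset.sum_range]
    refine Finset.sum_congr rfl fun i _ => ?_
    congr 2
    rw [izx_nat]
    apply Fin.ext
    simp only [ix]
    exact Nat.mod_eq_of_lt i.2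
  intro j
  refine eq_of_diff (F := fun j => F (j + ((m : ℤ) + 1))) (G := fun j => F j - φ none) ?_ ?_ j
  · simp only [zero_add]
    rw [hs, h0]; ring
  · intro j
    rw [show j + 1 + ((m : ℤ) + 1) = j + ((m : ℤ) + 1) + 1 by ring, h1, h1, izx_add]
    ring

theorem flux_half_of (hrow : FluxRowSt) {m M : ℕ} (c : ℕ → Fin (m + 1) → Bool) (σ : Pat (m + 1))
    (φ : Vx (m + 1) → ℤ) (h : Flux (rows m c M σ) φ) :
    ∃ f : ℤ × ℕ → ℤ, (∀ a b, LK m M c a b → f a = f b) ∧
      (∀ j r, r ≤ M → f (j + ((m : ℤ) + 1), r) = f (j, r) - φ none) ∧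
      (∀ j, f (j + 1, M) = f (j, M) + φ (some (izx m j))) ∧ f (0, M) = 0 := by
  induction M generalizing φ with
  | zero =>
    obtain ⟨F, h0, h1, h2⟩ := exists_level h
    refine ⟨fun a => F a.1, ?_, ?_, ?_, h0⟩
    · rintro a b ⟨j, r, hr, _⟩
      omega
    · intro j r _
      exact h2 j
    · intro j
      exact h1 j
  | succ M ih =>
    obtain ⟨ψ, Hc, g1, g2, g3⟩ := hrow (c M) (rows m c M σ) φ h
    obtain ⟨f', e1, e2, e3, e4⟩ := ih ψ g1
    obtain ⟨F, h0, h1, h2⟩ := exists_level h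
    obtain ⟨C, hC⟩ : ∃ C, Hc (izx m (0 - 1)) = C := ⟨_, rfl⟩
    have key : ∀ j : ℤ, f' (j, M) + C = F j + Hc (izx m (j - 1)) := by
      refine eq_of_diff (F := fun j => f' (j, M) + C) (G := fun j => F j + Hc (izx m (j - 1)))
        ?_ ?_
      · rw [e4, h0, hC]
      · intro j
        rw [e3, h1, show j + 1 - 1 = j by ring]
        obtain ⟨n, n1, n2⟩ := exists_ix m j
        rw [n1, n2]
        cases hc : c M (ix m (n + 1)) with
        | false =>
          have := g3.f n hc
          rw [this.1, this.2]; ring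
        | true =>
          have := g3.t n hc
          rw [this.1, this.2]; ring
    refine ⟨fun a => if a.2 ≤ M then f' a + C else F a.1, ?_, ?_, ?_, ?_⟩
    · rintro a b ⟨j, r, hr, hab⟩
      by_cases hrM : r < M
      · have hf : f' a = f' b := e1 a b ⟨j, r, hrM, hab⟩
        have h2a : a.2 ≤ M ∧ b.2 ≤ M := by
          rcases hab with ⟨_, rfl, rfl⟩ | ⟨_, rfl, rfl⟩
          · simp only; omega
          · simp only; omega
        simp only [h2a.1, h2a.2, if_true, hf]
      · have hrM' : r = M := by omega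
        subst hrM'
        obtain ⟨n, n1, n2⟩ := exists_ix m j
        rcases hab with ⟨hc, rfl, rfl⟩ | ⟨hc, rfl, rfl⟩
        · have k1 : ¬ (r + 1 ≤ r) := by omega
          simp only [le_refl, if_true, k1, if_false]
          rw [key, h1, n1, n2]
          rw [n1] at hc
          have := g3.f n hc
          rw [this.2]
        · have k1 : ¬ (r + 1 ≤ r) := by omega
          simp only [le_refl, if_true, k1, if_false]
          rw [key, h1, show j + 1 - 1 = j by ring, n1]
          rw [n1] at hc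
          have := g3.t n hc
          rw [this.2]; ring
    · intro j r hr
      by_cases hrM : r ≤ M
      · simp only [hrM, if_true]
        rw [e2 j r hrM, g2]; ring
      · simp only [hrM, if_false]
        exact h2 j
    · intro j
      have k1 : ¬ (M + 1 ≤ M) := by omega
      simp only [k1, if_false]
      exact h1 j
    · have k1 : ¬ (M + 1 ≤ M) := by omega
      simp only [k1, if_false]
      exact h0

theorem flux_cover_of (hrow : FluxRowSt) {m M : ℕ} (c : ℕ → Fin (m + 1) → Bool) (σ τ : Pat (m + 1))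
    (φ : Vx (m + 1) → ℤ) (h1 : Flux (rows m c M σ) φ) (h2 : Flux (rows m (upr M c) M τ) φ) :
    ∃ f : ℤ × ℕ → ℤ, (∀ a b, LK m (2 * M) c a b → f a = f b) ∧
      (∀ j r, r ≤ 2 * M → f (j + ((m : ℤ) + 1), r) = f (j, r) - φ none) ∧
      ∀ j, f (j + 1, M) = f (j, M) + φ (some (izx m j)) := by
  obtain ⟨f1, a1, a2, a3, a4⟩ := flux_half_of hrow c σ φ h1
  obtain ⟨f2, b1, b2, b3, b4⟩ := flux_half_of hrow (upr M c) τ φ h2
  have hM : ∀ j : ℤ, f1 (j, M) = f2 (j, M) := by
    refine eq_of_diff (F := fun j => f1 (j, M)) (G := fun j => f2 (j, M)) ?_ ?_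
    · rw [a4, b4]
    · intro j; rw [a3, b3]; ring
  -- the value at a level above the middle
  have hup : ∀ (j : ℤ) (r : ℕ), M ≤ r →
      (if r ≤ M then f1 (j, r) else f2 (j, 2 * M - r)) = f2 (j, 2 * M - r) := by
    intro j r hr
    by_cases h : r ≤ M
    · have : r = M := by omega
      subst this
      simp only [le_refl, if_true]
      rw [hM, show 2 * r - r = r by omega]
    · simp only [h, if_false]
  refine ⟨fun a => if a.2 ≤ M then f1 a else f2 (a.1, 2 * M - a.2), ?_, ?_, ?_⟩
  · rintro a b ⟨j, r, hr, hab⟩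
    by_cases hrM : r < M
    · have hf : f1 a = f1 b := a1 a b ⟨j, r, hrM, hab⟩
      have h2a : a.2 ≤ M ∧ b.2 ≤ M := by
        rcases hab with ⟨_, rfl, rfl⟩ | ⟨_, rfl, rfl⟩
        · simp only; omega
        · simp only; omega
      simp only [h2a.1, h2a.2, if_true, hf]
    · obtain ⟨t, ht⟩ : ∃ t, t = 2 * M - 1 - r := ⟨_, rfl⟩
      have ht1 : t < M := by omega
      have ht2 : 2 * M - 1 - t = r := by omega
      have ht3 : 2 * M - r = t + 1 := by omega
      have ht4 : 2 * M - (r + 1) = t := by omega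
      rcases hab with ⟨hc, rfl, rfl⟩ | ⟨hc, rfl, rfl⟩
      · simp only
        rw [hup _ _ (by omega), hup _ _ (by omega), ht3, ht4]
        refine b1 (j, t + 1) (j + 1, t) ⟨j, t, ht1, Or.inr ⟨?_, rfl, rfl⟩⟩
        unfold upr
        rw [ht2, hc]; rfl
      · simp only
        rw [hup _ _ (by omega), hup _ _ (by omega), ht3, ht4]
        refine b1 (j, t) (j + 1, t + 1) ⟨j, t, ht1, Or.inl ⟨?_, rfl, rfl⟩⟩
        unfold upr
        rw [ht2, hc]; rfl
  · intro j r hr
    by_cases hrM : r ≤ M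
    · simp only [hrM, if_true]
      exact a2 j r hrM
    · simp only [hrM, if_false]
      exact b2 j _ (by omega)
  · intro j
    simp only [le_refl, if_true]
    exact a3 j

end Pool.Agent.H988R4
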