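import Pool.Agent.H988R4.Defs
import Pool.Agent.H988R3.P4Base

/-!
# Transfer, task T4: flipping the two marked strands
-/

namespace Pool.Agent.H988R4
open Equiv Pool.Agent.H974R3 Pool.Agent.H988R3
open H974 hiding SS

/-- sign of a Boolean -/
def T4sg (x : Bool) : ℤ := if x then 1 else -1

/-- value of a Boolean -/
def T4vl (x : Bool) : ℤ := if x then 1 else 0

theorem T4sg_not (x : Bool) : T4sg (!x) = -T4sg x := by cases x <;> rfl

theorem T4sg_inj {x y : Bool} (h : T4sg x = T4sg y) : x = y := by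
  cases x <;> cases y <;> simp [T4sg] at h ⊢

theorem T4sg_ne (x : Bool) : T4sg x ≠ 0 := by cases x <;> simp [T4sg]

theorem T4vl_inj {x y : Bool} (h : T4vl x = T4vl y) : x = y := by
  cases x <;> cases y <;> simp [T4vl] at h ⊢

theorem T4_sum_zero {V : Type*} [Fintype V] (s : Perm V) (h g : V → Bool)
    (hh : ∀ v, h (s v) = !h v) (hg : ∀ v, g (s v) = g v) :
    ∑ v, T4sg (h v) * T4vl (g v) = 0 := by
  have h1 : ∑ v, T4sg (h v) * T4vl (g v) = ∑ v, T4sg (h (s v)) * T4vl (g (s v)) :=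
    (Equiv.sum_comp s (fun v => T4sg (h v) * T4vl (g v))).symm
  have h2 : ∑ v, T4sg (h (s v)) * T4vl (g (s v)) = -∑ v, T4sg (h v) * T4vl (g v) := by
    rw [← Finset.sum_neg_distrib]
    apply Finset.sum_congr rfl
    intro v _
    rw [hh, hg, T4sg_not]
    ring
  rw [h2] at h1
  omega

theorem no_same_sum {L : ℕ} (σ τ : Pat L) (a b : Fin L) (hab : a ≠ b) (hP : P4 a b σ τ)
    (gl gu : Vx L → Bool) (hl : ∀ v, gl (σ.1 v) = gl v) (hu : ∀ v, gu (τ.1 v) = gu v)
    (hn : gl none = false) (hn' : gu none = false)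
    (hag : ∀ v, v ≠ some a → v ≠ some b → gl v = gu v)
    (h1 : gl (some a) = gl (some b)) (h2 : gu (some a) = gu (some b)) :
    gl (some a) = false ∧ gu (some a) = false := by
  obtain ⟨h, hh⟩ := exists_alt σ.1 τ.1 σ.2.inv σ.2.nofix τ.2.inv τ.2.nofix
  have hs := hP.2 h hh
  have e1 := T4_sum_zero σ.1 h gl hh.1 hl
  have e2 := T4_sum_zero τ.1 h gu hh.2 hu
  have e3 : ∑ v, T4sg (h v) * (T4vl (gl v) - T4vl (gu v)) = 0 := by
    have : ∑ v, T4sg (h v) * (T4vl (gl v) - T4vl (gu v)) =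
        ∑ v, T4sg (h v) * T4vl (gl v) - ∑ v, T4sg (h v) * T4vl (gu v) := by
      rw [← Finset.sum_sub_distrib]
      apply Finset.sum_congr rfl
      intro v _
      ring
    rw [this, e1, e2, sub_zero]
  have hne : (some a : Vx L) ≠ some b := fun e => hab (Option.some.inj e)
  have e4 : ∑ v, T4sg (h v) * (T4vl (gl v) - T4vl (gu v)) =
      ∑ v ∈ ({some a, some b} : Finset (Vx L)), T4sg (h v) * (T4vl (gl v) - T4vl (gu v)) := by
    symm
    apply Finset.sum_subset (Finset.subset_univ _)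
    intro v _ hv
    rw [Finset.mem_insert, Finset.mem_singleton, not_or] at hv
    rw [hag v hv.1 hv.2, sub_self, mul_zero]
  rw [e4, Finset.sum_pair hne, ← h1, ← h2, ← hs] at e3
  have e5 : T4vl (gl (some a)) = T4vl (gu (some a)) := by
    have e6 : T4sg (h (some a)) * (T4vl (gl (some a)) - T4vl (gu (some a))) = 0 := by omega
    rcases mul_eq_zero.mp e6 with e7 | e7
    · exact absurd e7 (T4sg_ne _)
    · omega
  have e8 := T4vl_inj e5
  have e9 : ∀ v, gl v = gu v := by
    intro v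
    by_cases ha : v = some a
    · rw [ha]; exact e8
    by_cases hb : v = some b
    · rw [hb, ← h1, ← h2]; exact e8
    exact hag v ha hb
  have e10 : gl (some a) = gl none := by
    apply hP.1 gl hl
    intro v
    rw [e9, e9]
    exact hu v
  rw [hn] at e10
  exact ⟨e10, by rw [← e8]; exact e10⟩

theorem flip_flux {m : ℕ} (hm : 1 ≤ m) (i : ℕ) (σ τ : Pat (m + 1))
    (hP : P4 (ix m i) (ix m (i + 1)) σ τ) :
    ∃ ψ φ : Vx (m + 1) → ℤ, Flux σ ψ ∧ Flux τ φ ∧
      (∀ v, v ≠ some (ix m i) → v ≠ some (ix m (i + 1)) → ψ v = φ v) ∧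
      ψ (some (ix m (i + 1))) = -ψ (some (ix m i)) ∧
      φ (some (ix m (i + 1))) = -φ (some (ix m i)) ∧
      ψ (some (ix m i)) ≠ φ (some (ix m i)) := by
  have hne : (some (ix m i) : Vx (m + 1)) ≠ some (ix m (i + 1)) :=
    fun e => rel_ix_ne hm i (Option.some.inj e)
  have hEv := E_val m i σ
  obtain ⟨h0, hh0⟩ := exists_alt σ.1 τ.1 σ.2.inv σ.2.nofix τ.2.inv τ.2.nofix
  obtain ⟨h, hh⟩ := exists_alt (E m i σ).1 τ.1 (E m i σ).2.inv (E m i σ).2.nofix
    τ.2.inv τ.2.nofix
  rw [hEv] at hh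
  have hsame := hP.2
  generalize (some (ix m i) : Vx (m + 1)) = a at *
  generalize (some (ix m (i + 1)) : Vx (m + 1)) = b at *
  have hsab : σ.1 a ≠ b := by
    intro e
    have e1 := hsame h0 hh0
    have e2 := hh0.1 a
    rw [e, ← e1] at e2
    cases hx : h0 a <;> rw [hx] at e2 <;> simp at e2
  have hsba : σ.1 b ≠ a := by
    intro e
    apply hsab
    rw [← e, σ.2.inv]
  have hja : join a b σ.1 a = b := pjoin_left hne (σ.2.nofix _)
  have hjsa : join a b σ.1 (σ.1 a) = σ.1 b := pjoin_sa σ.2.inv hne σ.2.nofix hsab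
  have hhb : h b = !h a := by rw [← hh.1 a, hja]
  have hhsb : h (σ.1 b) = !h (σ.1 a) := by rw [← hh.1 (σ.1 a), hjsa]
  refine ⟨fun v => if v = a then -T4sg (h (σ.1 a)) else if v = b then -T4sg (h (σ.1 b)) else
    T4sg (h v), fun v => T4sg (h v), ?_, ?_, ?_, ?_, ?_, ?_⟩
  · intro v
    by_cases hva : v = a
    · subst hva
      simp [σ.2.nofix v, hsab]
    by_cases hvb : v = b
    · subst hvb
      simp [σ.2.nofix v, hsba, Ne.symm hne]
    by_cases h3 : v = σ.1 a
    · subst h3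
      rw [σ.2.inv]
      simp [hsab, σ.2.nofix a]
    by_cases h4 : v = σ.1 b
    · subst h4
      rw [σ.2.inv]
      simp [hsba, σ.2.nofix b, Ne.symm hne]
    have e1 : σ.1 v ≠ a := by
      intro e
      apply h3
      rw [← e, σ.2.inv]
    have e2 : σ.1 v ≠ b := by
      intro e
      apply h4
      rw [← e, σ.2.inv]
    simp only [hva, hvb, e1, e2, if_false]
    rw [← T4sg_not, ← hh.1 v, pjoin_other σ.2.inv hva hvb h3 h4]
  · intro v
    show T4sg (h (τ.1 v)) = -T4sg (h v)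
    rw [hh.2, T4sg_not]
  · intro v hva hvb
    simp [hva, hvb]
  · simp only [if_true, Ne.symm hne, if_false]
    rw [hhsb, T4sg_not]
  · show T4sg (h b) = -T4sg (h a)
    rw [hhb, T4sg_not]
  · simp only [if_true]
    intro e
    have e1 : h (σ.1 a) = !h a := by
      apply T4sg_inj
      rw [T4sg_not]
      omega
    have e2 : h (σ.1 b) = !h b := by rw [hhsb, e1, hhb]
    have halt : ∀ v, h (σ.1 v) = !h v := by
      intro v
      by_cases hva : v = a
      · rw [hva]; exact e1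
      by_cases hvb : v = b
      · rw [hvb]; exact e2
      by_cases h3 : v = σ.1 a
      · rw [h3, σ.2.inv, e1, Bool.not_not]
      by_cases h4 : v = σ.1 b
      · rw [h4, σ.2.inv, e2, Bool.not_not]
      rw [← hh.1 v, pjoin_other σ.2.inv hva hvb h3 h4]
    have e3 := hsame h ⟨halt, hh.2⟩
    rw [hhb] at e3
    cases hx : h a <;> rw [hx] at e3 <;> simp at e3

end Pool.Agent.H988R4
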