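import Pool.Agent.H988R4.Defs
import Pool.Agent.H988R4.Cover
import Pool.Agent.H988R4.Flip
import Pool.Agent.H988R3.P4Base

/-!
# Transfer, task T6: from the pattern event `P4` to four arms in the box
-/

namespace Pool.Agent.H988R4
open Equiv Pool.Agent.H974R3 Pool.Agent.H988R3
open H974 hiding SS

/-! ### geometry of the faces -/

theorem t6_mem_sq (e : Edg) : e ∈ sq ↔ dsrc e = (0, 0) ∨ dtgt e = (0, 0) := by
  obtain ⟨x, y, b⟩ := e
  unfold sq dsrc dtgt
  cases b
  · simp only [Set.mem_insert_iff, Set.mem_singleton_iff, Prod.mk.injEq, Bool.false_eq_true,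
      and_false, false_or, or_false, and_true, if_false]
    constructor
    · rintro (⟨h1, h2⟩ | ⟨h1, h2⟩)
      · left; constructor <;> omega
      · right; constructor <;> omega
    · rintro (⟨h1, h2⟩ | ⟨h1, h2⟩)
      · left; constructor <;> omega
      · right; constructor <;> omega
  · simp only [Set.mem_insert_iff, Set.mem_singleton_iff, Prod.mk.injEq, Bool.true_eq_false,
      and_false, false_or, and_true, if_true]
    constructor
    · rintro (⟨h1, h2⟩ | ⟨h1, h2⟩)
      · right; constructor <;> omega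
      · left; constructor <;> omega
    · rintro (⟨h1, h2⟩ | ⟨h1, h2⟩)
      · right; constructor <;> omega
      · left; constructor <;> omega

theorem t6_d0 {n M j r : ℕ} (hp : ¬ (j + r) % 2 = (n + M) % 2) :
    dsrc (ed n M j r) = dv n M j r ∧ dtgt (ed n M j r) = dv n M (j + 1) (r + 1) := by
  unfold ed dv
  rw [if_neg hp]
  simp only [dsrc_false, dtgt_mk, Prod.mk.injEq]
  push_cast
  refine ⟨⟨?_, ?_⟩, ?_, ?_⟩ <;> omega

theorem t6_d1 {n M j r : ℕ} (hp : (j + r) % 2 = (n + M) % 2) :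
    dsrc (ed n M j r) = dv n M j (r + 1) ∧ dtgt (ed n M j r) = dv n M (j + 1) r := by
  unfold ed dv
  rw [if_pos hp]
  simp only [dsrc_true, dtgt_mk, Prod.mk.injEq]
  push_cast
  refine ⟨⟨?_, ?_⟩, ?_, ?_⟩ <;> omega

/-- coordinates of a dual face -/
theorem t6_coord {n M j r : ℕ} (hp : ¬ (j + r) % 2 = (n + M) % 2) :
    (dv n M j r).1 + (dv n M j r).2 + n + 1 = j ∧ (dv n M j r).1 - (dv n M j r).2 + M = r := by
  unfold dv
  simp only
  constructor <;> omega

theorem t6_zero {n M j r : ℕ} (hp : ¬ (j + r) % 2 = (n + M) % 2) :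
    dv n M j r = (0, 0) ↔ j = n + 1 ∧ r = M := by
  have h := t6_coord hp
  constructor
  · intro h0
    rw [h0] at h
    simp only at h
    constructor <;> omega
  · rintro ⟨rfl, rfl⟩
    exact dv_mid n r

/-! ### labellings -/

open Classical in
/-- label with a prescribed value at the face `(0,0)` -/
noncomputable def t6H (n M : ℕ) (K : Vtx → Bool) (b : Bool) (j r : ℕ) : Bool :=
  if dv n M j r = (0, 0) then b else K (dv n M j r)

theorem t6H_ne {n M : ℕ} {K : Vtx → Bool} {b : Bool} {j r : ℕ} (h : dv n M j r ≠ (0, 0)) :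
    t6H n M K b j r = K (dv n M j r) := by
  unfold t6H; rw [if_neg h]

theorem t6H_eq {n M : ℕ} {K : Vtx → Bool} {b : Bool} {j r : ℕ} (h : dv n M j r = (0, 0)) :
    t6H n M K b j r = b := by
  unfold t6H; rw [if_pos h]

/-- labels at the two ends of a closed edge in the box -/
theorem t6_edge {n M : ℕ} {G : Set Edg} {K : Vtx → Bool} {b : Bool}
    (hK : ∀ e ∈ G \ sq, K (dsrc e) = K (dtgt e)) {j r j' r' : ℕ} {e : Edg} (he : e ∈ G)
    (h1 : dsrc e = dv n M j r) (h2 : dtgt e = dv n M j' r')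
    (hb1 : dsrc e = (0, 0) → K (dtgt e) = b) (hb2 : dtgt e = (0, 0) → K (dsrc e) = b) :
    t6H n M K b j r = t6H n M K b j' r' := by
  by_cases h0 : dsrc e = (0, 0)
  · have h3 : dtgt e ≠ (0, 0) := by
      intro h3
      have h4 : dsrc e = dtgt e := by rw [h0, h3]
      obtain ⟨x, y, c⟩ := e
      cases c
      · simp at h4
      · simp at h4
    rw [t6H_eq (by rw [← h1]; exact h0), t6H_ne (by rw [← h2]; exact h3), ← h2, hb1 h0]
  · by_cases h3 : dtgt e = (0, 0)
    · rw [t6H_eq (j := j') (r := r') (by rw [← h2]; exact h3),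
        t6H_ne (by rw [← h1]; exact h0), ← h1, hb2 h3]
    · rw [t6H_ne (j := j') (r := r') (by rw [← h2]; exact h3),
        t6H_ne (by rw [← h1]; exact h0), ← h1, ← h2]
      apply hK
      refine ⟨he, ?_⟩
      rw [t6_mem_sq]
      rintro (h | h)
      · exact h0 h
      · exact h3 h

theorem t6_label {n M : ℕ} (hn : 1 ≤ n) (hM : n ≤ M) {F : Finset Edg} {G : Set Edg}
    (hG : ∀ j r, j < 2 * n + 1 → r < 2 * M → (ed n M j r ∉ F ↔ ed n M j r ∈ G))
    (σ τ : Pat (2 * n + 1))
    (hP : P4 (⟨n, by omega⟩ : Fin (2 * n + 1)) (⟨n + 1, by omega⟩ : Fin (2 * n + 1))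
      (rows (2 * n) (cl n M F) M σ) (rows (2 * n) (cu n M F) M τ))
    (K : Vtx → Bool) (bu bl : Bool)
    (hK : ∀ e ∈ G \ sq, K (dsrc e) = K (dtgt e))
    (hfar : ∀ x : Vtx, (n : ℤ) ≤ |x.1| + |x.2| → K x = false)
    (h1 : ((0, 0, true) : Edg) ∈ G → K (0, -1) = bu)
    (h2 : ((1, 0, false) : Edg) ∈ G → K (1, 0) = bu)
    (h3 : ((0, 0, false) : Edg) ∈ G → K (-1, 0) = bl)
    (h4 : ((0, 1, true) : Edg) ∈ G → K (0, 1) = bl) : bl = false ∧ bu = false := by
  have hbd : ∀ b j r, (j + r) % 2 = (n + M + 1) % 2 → Bdr n M j r →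
      t6H n M K b j r = false := by
    intro b j r hp hb
    have h := dv_bdr (r := r) (j := j) hM (by omega) hb
    have hne : dv n M j r ≠ (0, 0) := by
      intro h0
      rw [h0] at h
      simp at h
      omega
    rw [t6H_ne hne]
    exact hfar _ h
  -- states and edges
  have hne : ¬ (n + M) % 2 = (n + M + 1) % 2 := by omega
  -- upper links
  have hu0 : ∀ r, M ≤ r → r < 2 * M → ∀ j : Fin (2 * n + 1), pst n M F r j = false →
      (j.val + r) % 2 = (n + M + 1) % 2 →
      t6H n M K bu j.val r = t6H n M K bu (j.val + 1) (r + 1) := by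
    intro r hr1 hr j hs hp
    have hp' : ¬ (j.val + r) % 2 = (n + M) % 2 := by omega
    have he : ed n M j.val r ∈ G := (hG _ _ j.2 hr).1 (pst_false_d hs hp')
    have hd := t6_d0 (n := n) (M := M) hp'
    refine t6_edge hK he hd.1 hd.2 ?_ ?_
    · intro h0
      rw [hd.1, t6_zero hp'] at h0
      obtain ⟨h5, h6⟩ := h0
      have h7 : ed n M j.val r = (1, 0, false) := by
        unfold ed; rw [if_neg hp', h5, h6]; simp
      rw [h7] at he ⊢
      exact h2 he
    · intro h0
      rw [hd.2, t6_zero (by omega)] at h0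
      omega
  have hu1 : ∀ r, M ≤ r → r < 2 * M → ∀ j : Fin (2 * n + 1), pst n M F r j = true →
      (j.val + r + 1) % 2 = (n + M + 1) % 2 →
      t6H n M K bu j.val (r + 1) = t6H n M K bu (j.val + 1) r := by
    intro r hr1 hr j hs hp
    have hp' : (j.val + r) % 2 = (n + M) % 2 := by omega
    have he : ed n M j.val r ∈ G := (hG _ _ j.2 hr).1 (pst_true_d hs hp')
    have hd := t6_d1 (n := n) (M := M) hp'
    refine t6_edge hK he hd.1 hd.2 ?_ ?_
    · intro h0
      rw [hd.1, t6_zero (by omega)] at h0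
      omega
    · intro h0
      rw [hd.2, t6_zero (by omega)] at h0
      obtain ⟨h5, h6⟩ := h0
      have h5' : j.val = n := by omega
      have h7 : ed n M j.val r = (0, 0, true) := by
        unfold ed; rw [if_pos hp', h5', h6]; simp
      rw [h7] at he ⊢
      exact h1 he
  have hl0 : ∀ r, r < M → ∀ j : Fin (2 * n + 1), pst n M F r j = false →
      (j.val + r) % 2 = (n + M + 1) % 2 →
      t6H n M K bl j.val r = t6H n M K bl (j.val + 1) (r + 1) := by
    intro r hr j hs hp
    have hp' : ¬ (j.val + r) % 2 = (n + M) % 2 := by omega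
    have he : ed n M j.val r ∈ G := (hG _ _ j.2 (by omega)).1 (pst_false_d hs hp')
    have hd := t6_d0 (n := n) (M := M) hp'
    refine t6_edge hK he hd.1 hd.2 ?_ ?_
    · intro h0
      rw [hd.1, t6_zero hp'] at h0
      omega
    · intro h0
      rw [hd.2, t6_zero (by omega)] at h0
      obtain ⟨h5, h6⟩ := h0
      have h5' : j.val = n := by omega
      have h6' : r = M - 1 := by omega
      have h8 : ((M - 1 : ℕ) : ℤ) = (M : ℤ) - 1 := by omega
      have h7 : ed n M j.val r = (0, 0, false) := by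
        unfold ed; rw [if_neg hp', h5', h6', h8]; simp
      rw [h7] at he ⊢
      exact h3 he
  have hl1 : ∀ r, r < M → ∀ j : Fin (2 * n + 1), pst n M F r j = true →
      (j.val + r + 1) % 2 = (n + M + 1) % 2 →
      t6H n M K bl j.val (r + 1) = t6H n M K bl (j.val + 1) r := by
    intro r hr j hs hp
    have hp' : (j.val + r) % 2 = (n + M) % 2 := by omega
    have he : ed n M j.val r ∈ G := (hG _ _ j.2 (by omega)).1 (pst_true_d hs hp')
    have hd := t6_d1 (n := n) (M := M) hp'
    refine t6_edge hK he hd.1 hd.2 ?_ ?_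
    · intro h0
      rw [hd.1, t6_zero (by omega)] at h0
      obtain ⟨h5, h6⟩ := h0
      have h6' : r = M - 1 := by omega
      have h8 : ((M - 1 : ℕ) : ℤ) = (M : ℤ) - 1 := by omega
      have h7 : ed n M j.val r = (0, 1, true) := by
        unfold ed; rw [if_pos hp', h5, h6', h8]; simp
      rw [h7] at he ⊢
      exact h4 he
    · intro h0
      rw [hd.2, t6_zero (by omega)] at h0
      omega
  have hl : Labelling (2 * n) M (cl n M F) ((n + M + 1) % 2) (t6H n M K bl) := by
    refine ⟨?_, ?_, ?_, ?_, ?_⟩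
    · intro t ht hp
      exact hbd _ 0 t (by simpa using hp) (Or.inl rfl)
    · intro t ht hp
      exact hbd _ (2 * n + 1) t hp (Or.inr (Or.inl rfl))
    · intro j hj hp
      exact hbd _ j 0 (by simpa using hp) (Or.inr (Or.inr (Or.inl rfl)))
    · intro t ht j hc hp
      exact hl0 t ht j hc hp
    · intro t ht j hc hp
      exact hl1 t ht j hc hp
  have hu : Labelling (2 * n) M (cu n M F) ((n + M + 1) % 2)
      (fun j t => t6H n M K bu j (2 * M - t)) := by
    refine ⟨?_, ?_, ?_, ?_, ?_⟩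
    · intro t ht hp
      exact hbd _ 0 _ (by omega) (Or.inl rfl)
    · intro t ht hp
      exact hbd _ (2 * n + 1) _ (by omega) (Or.inr (Or.inl rfl))
    · intro j hj hp
      exact hbd _ j _ (by omega) (Or.inr (Or.inr (Or.inr (by omega))))
    · intro t ht j hc hp
      have hc' : pst n M F (2 * M - 1 - t) j = true := by
        unfold cu at hc; simpa using hc
      have := hu1 (2 * M - 1 - t) (by omega) (by omega) j hc' (by omega)
      have e1 : 2 * M - 1 - t + 1 = 2 * M - t := by omega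
      have e2 : 2 * M - (t + 1) = 2 * M - 1 - t := by omega
      show t6H n M K bu j.val (2 * M - t) = t6H n M K bu (j.val + 1) (2 * M - (t + 1))
      rw [e2, ← e1]; exact this
    · intro t ht j hc hp
      have hc' : pst n M F (2 * M - 1 - t) j = false := by
        unfold cu at hc; simpa using hc
      have := hu0 (2 * M - 1 - t) (by omega) (by omega) j hc' (by omega)
      have e1 : 2 * M - 1 - t + 1 = 2 * M - t := by omega
      have e2 : 2 * M - (t + 1) = 2 * M - 1 - t := by omega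
      show t6H n M K bu j.val (2 * M - (t + 1)) = t6H n M K bu (j.val + 1) (2 * M - t)
      rw [e2, ← e1]; exact this
  have hε : (n + M + 1) % 2 < 2 := Nat.mod_lt _ (by norm_num)
  have c1 := compat hε hl σ
  have c2 := compat hε hu τ
  have e3 : 2 * M - M = M := by omega
  have e : lab (m := 2 * n) (fun j t => t6H n M K bu j (2 * M - t)) ((n + M + 1) % 2) M
      = lab (m := 2 * n) (t6H n M K bu) ((n + M + 1) % 2) M := by
    funext v
    rcases v with _ | j
    · rfl
    · simp only [lab, e3]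
  rw [e] at c2
  have hmid : dv n M (n + 1) M = (0, 0) := dv_mid n M
  have va : ∀ b, lab (m := 2 * n) (t6H n M K b) ((n + M + 1) % 2) M
      (some ⟨n, by omega⟩) = b := by
    intro b
    simp only [lab, if_neg hne]
    exact t6H_eq hmid
  have vb : ∀ b, lab (m := 2 * n) (t6H n M K b) ((n + M + 1) % 2) M
      (some ⟨n + 1, by omega⟩) = b := by
    intro b
    have h5 : (n + 1 + M) % 2 = (n + M + 1) % 2 := by omega
    simp only [lab, if_pos h5]
    exact t6H_eq hmid
  have hab : (⟨n, by omega⟩ : Fin (2 * n + 1)) ≠ ⟨n + 1, by omega⟩ := by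
    intro h; simp at h
  have key := no_same_sum _ _ _ _ hab hP _ _ c1 c2 rfl rfl ?_ ?_ ?_
  · rw [va, va] at key
    exact key
  · intro v hva hvb
    rcases v with _ | j
    · rfl
    · have hja : j.val ≠ n := fun h => hva (by congr 1; exact Fin.ext h)
      have hjb : j.val ≠ n + 1 := fun h => hvb (by congr 1; exact Fin.ext h)
      simp only [lab]
      by_cases h5 : (j.val + M) % 2 = (n + M + 1) % 2
      · rw [if_pos h5, if_pos h5, t6H_ne, t6H_ne]
        · intro h; rw [t6_zero (by omega)] at h; exact hjb h.1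
        · intro h; rw [t6_zero (by omega)] at h; exact hjb h.1
      · rw [if_neg h5, if_neg h5, t6H_ne, t6H_ne]
        · intro h; rw [t6_zero (by omega)] at h; omega
        · intro h; rw [t6_zero (by omega)] at h; omega
  · rw [va, vb]
  · rw [va, vb]

/-! ### height functions -/

theorem t6_izx {m j : ℕ} (hj : j < m + 1) : izx m (j : ℤ) = ⟨j, hj⟩ := by
  unfold izx
  apply Fin.ext
  show ((j : ℤ) % ((m : ℤ) + 1)).toNat = j
  rw [Int.emod_eq_of_lt (by omega) (by omega)]
  simp

/-- the common height function of the dual faces other than `(0,0)` -/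
noncomputable def t6g (n M : ℕ) (fl fu : ℤ × ℕ → ℤ) (x : Vtx) : ℤ :=
  if x.1 ≤ x.2 then fl (x.1 + x.2 + n + 1, (x.1 - x.2 + M).toNat)
  else fu (x.1 + x.2 + n + 1, (M - (x.1 - x.2)).toNat)

theorem t6g_low {n M : ℕ} {fl fu : ℤ × ℕ → ℤ} {j r : ℕ} (hp : ¬ (j + r) % 2 = (n + M) % 2)
    (hr : r ≤ M) : t6g n M fl fu (dv n M j r) = fl (j, r) := by
  have h := t6_coord hp
  unfold t6g
  rw [if_pos (by omega), h.1, h.2, Int.toNat_natCast]

theorem t6g_up {n M : ℕ} {fl fu : ℤ × ℕ → ℤ} {j r : ℕ} (hp : ¬ (j + r) % 2 = (n + M) % 2)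
    (hr : M ≤ r) (hr2 : r ≤ 2 * M) (hag : r = M → fl (j, M) = fu (j, M)) :
    t6g n M fl fu (dv n M j r) = fu (j, 2 * M - r) := by
  have h := t6_coord hp
  unfold t6g
  by_cases hrM : r = M
  · rw [if_pos (by omega), h.1, h.2, Int.toNat_natCast, hrM, hag hrM]
    congr 2
    omega
  · rw [if_neg (by omega), h.1]
    congr 2
    omega

/-- the dual path from the upper side of the face cannot reach the lower side -/
theorem t6_noconn {n M : ℕ} (hn : 1 ≤ n) (hM : n ≤ M) {F : Finset Edg} {G : Set Edg}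
    (hG : ∀ j r, j < 2 * n + 1 → r < 2 * M → (ed n M j r ∉ F ↔ ed n M j r ∈ G))
    (hG' : ∀ e ∈ G, ∃ j r, j < 2 * n + 1 ∧ r < 2 * M ∧ e = ed n M j r)
    (σ τ : Pat (2 * n + 1))
    (hP : P4 (⟨n, by omega⟩ : Fin (2 * n + 1)) (⟨n + 1, by omega⟩ : Fin (2 * n + 1))
      (rows (2 * n) (cl n M F) M σ) (rows (2 * n) (cu n M F) M τ))
    (x y : Vtx)
    (hx : (((0, 0, true) : Edg) ∈ G ∧ x = (0, -1)) ∨ (((1, 0, false) : Edg) ∈ G ∧ x = (1, 0)))
    (hy : (((0, 0, false) : Edg) ∈ G ∧ y = (-1, 0)) ∨ (((0, 1, true) : Edg) ∈ G ∧ y = (0, 1))) :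
    ¬ DReach (G \ sq) x y := by
  intro hxy
  have ixn : ix (2 * n) n = ⟨n, by omega⟩ := by
    apply Fin.ext; show n % (2 * n + 1) = n; exact Nat.mod_eq_of_lt (by omega)
  have ixn1 : ix (2 * n) (n + 1) = ⟨n + 1, by omega⟩ := by
    apply Fin.ext; show (n + 1) % (2 * n + 1) = n + 1; exact Nat.mod_eq_of_lt (by omega)
  have hP' : P4 (ix (2 * n) n) (ix (2 * n) (n + 1))
      (rows (2 * n) (cl n M F) M σ) (rows (2 * n) (cu n M F) M τ) := by
    rw [ixn, ixn1]; exact hP
  obtain ⟨ψ, φ, hψ, hφ, hag, hψ1, hφ1, hne⟩ := flip_flux (by omega) n _ _ hP'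
  rw [ixn, ixn1] at hag
  rw [ixn, ixn1] at hψ1 hφ1
  rw [ixn] at hne
  obtain ⟨fl, fl1, -, fl3, fl4⟩ := flux_half (cl n M F) σ ψ hψ
  obtain ⟨fu, fu1, -, fu3, fu4⟩ := flux_half (cu n M F) τ φ hφ
  -- agreement on the slice
  have stepl : ∀ j : ℕ, ∀ hj : j < 2 * n + 1, fl ((j + 1 : ℕ), M) = fl (j, M) + ψ (some ⟨j, hj⟩) := by
    intro j hj
    have := fl3 j
    rw [t6_izx hj] at this
    push_cast
    exact this
  have stepu : ∀ j : ℕ, ∀ hj : j < 2 * n + 1, fu ((j + 1 : ℕ), M) = fu (j, M) + φ (some ⟨j, hj⟩) := by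
    intro j hj
    have := fu3 j
    rw [t6_izx hj] at this
    push_cast
    exact this
  have some_ne : ∀ (a b : ℕ) (ha : a < 2 * n + 1) (hb : b < 2 * n + 1), a ≠ b →
      (some ⟨a, ha⟩ : Vx (2 * n + 1)) ≠ some ⟨b, hb⟩ := by
    intro a b ha hb hab h
    have h2 := congrArg Fin.val (Option.some.inj h)
    exact hab h2
  have ag1 : ∀ j : ℕ, j ≤ n → fl (j, M) = fu (j, M) := by
    intro j
    induction j with
    | zero => intro _; rw [Nat.cast_zero, fl4, fu4]
    | succ j ih =>
      intro hj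
      rw [stepl j (by omega), stepu j (by omega), ih (by omega),
        hag _ (some_ne j n _ _ (by omega)) (some_ne j (n + 1) _ _ (by omega))]
  have agm : fl ((n + 1 : ℕ), M) ≠ fu ((n + 1 : ℕ), M) := by
    rw [stepl n (by omega), stepu n (by omega), ag1 n le_rfl]
    intro h
    exact hne (by linarith)
  have ag2 : ∀ i : ℕ, n + 2 + i ≤ 2 * n + 1 →
      fl ((n + 2 + i : ℕ), M) = fu ((n + 2 + i : ℕ), M) := by
    intro i
    induction i with
    | zero =>
      intro hi
      rw [add_zero, show n + 2 = n + 1 + 1 by ring, stepl (n + 1) (by omega),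
        stepu (n + 1) (by omega), stepl n (by omega), stepu n (by omega), hψ1, hφ1,
        ag1 n le_rfl]
      ring
    | succ i ih =>
      intro hi
      rw [show n + 2 + (i + 1) = n + 2 + i + 1 by ring, stepl (n + 2 + i) (by omega),
        stepu (n + 2 + i) (by omega), ih (by omega),
        hag _ (some_ne (n + 2 + i) n _ _ (by omega)) (some_ne (n + 2 + i) (n + 1) _ _ (by omega))]
  have ag : ∀ j : ℕ, j ≤ 2 * n + 1 → j ≠ n + 1 → fl (j, M) = fu (j, M) := by
    intro j hj hj1
    by_cases h : j ≤ n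
    · exact ag1 j h
    · obtain ⟨i, rfl⟩ : ∃ i, j = n + 2 + i := ⟨j - (n + 2), by omega⟩
      exact ag2 i hj
  -- links
  have lkl0 : ∀ j r : ℕ, j < 2 * n + 1 → r < M → ¬ (j + r) % 2 = (n + M) % 2 →
      ed n M j r ∈ G → fl (j, r) = fl ((j + 1 : ℕ), r + 1) := by
    intro j r hj hr hp he
    refine fl1 _ _ ⟨j, r, hr, Or.inl ⟨?_, rfl, ?_⟩⟩
    · rw [t6_izx hj]
      show pst n M F r ⟨j, hj⟩ = false
      unfold pst
      rw [if_neg hp]
      exact decide_eq_false ((hG j r hj (by omega)).2 he)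
    · push_cast; rfl
  have lkl1 : ∀ j r : ℕ, j < 2 * n + 1 → r < M → (j + r) % 2 = (n + M) % 2 →
      ed n M j r ∈ G → fl (j, r + 1) = fl ((j + 1 : ℕ), r) := by
    intro j r hj hr hp he
    refine fl1 _ _ ⟨j, r, hr, Or.inr ⟨?_, rfl, ?_⟩⟩
    · rw [t6_izx hj]
      show pst n M F r ⟨j, hj⟩ = true
      unfold pst
      rw [if_pos hp]
      exact decide_eq_true ((hG j r hj (by omega)).2 he)
    · push_cast; rfl
  have lku0 : ∀ j r : ℕ, j < 2 * n + 1 → M ≤ r → r < 2 * M → ¬ (j + r) % 2 = (n + M) % 2 →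
      ed n M j r ∈ G → fu (j, 2 * M - r) = fu ((j + 1 : ℕ), 2 * M - (r + 1)) := by
    intro j r hj hr1 hr hp he
    refine fu1 _ _ ⟨j, 2 * M - (r + 1), by omega, Or.inr ⟨?_, ?_, ?_⟩⟩
    · rw [t6_izx hj]
      show (!(pst n M F (2 * M - 1 - (2 * M - (r + 1))) ⟨j, hj⟩)) = true
      rw [show 2 * M - 1 - (2 * M - (r + 1)) = r by omega]
      unfold pst
      rw [if_neg hp, decide_eq_false ((hG j r hj (by omega)).2 he)]
      rfl
    · congr 1; omega
    · push_cast; rfl
  have lku1 : ∀ j r : ℕ, j < 2 * n + 1 → M ≤ r → r < 2 * M → (j + r) % 2 = (n + M) % 2 →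
      ed n M j r ∈ G → fu (j, 2 * M - (r + 1)) = fu ((j + 1 : ℕ), 2 * M - r) := by
    intro j r hj hr1 hr hp he
    refine fu1 _ _ ⟨j, 2 * M - (r + 1), by omega, Or.inl ⟨?_, rfl, ?_⟩⟩
    · rw [t6_izx hj]
      show (!(pst n M F (2 * M - 1 - (2 * M - (r + 1))) ⟨j, hj⟩)) = false
      rw [show 2 * M - 1 - (2 * M - (r + 1)) = r by omega]
      unfold pst
      rw [if_pos hp, decide_eq_true ((hG j r hj (by omega)).2 he)]
      rfl
    · push_cast
      congr 1
      omega
  -- constancy of the height along edges of `G \ sq`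
  have gconst : ∀ e ∈ G \ sq, t6g n M fl fu (dsrc e) = t6g n M fl fu (dtgt e) := by
    rintro e ⟨he, hsq⟩
    rw [t6_mem_sq] at hsq
    push Not at hsq
    obtain ⟨j, r, hj, hr, rfl⟩ := hG' e he
    by_cases hp : (j + r) % 2 = (n + M) % 2
    · have hd := t6_d1 (n := n) (M := M) hp
      rw [hd.1, hd.2] at hsq ⊢
      have hp1 : ¬ (j + (r + 1)) % 2 = (n + M) % 2 := by omega
      have hp2 : ¬ (j + 1 + r) % 2 = (n + M) % 2 := by omega
      rw [Ne, t6_zero hp1, Ne, t6_zero hp2] at hsq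
      by_cases hrM : r < M
      · rw [t6g_low hp1 (by omega), t6g_low hp2 (by omega)]
        exact lkl1 j r hj hrM hp he
      · rw [t6g_up hp1 (by omega) (by omega) (by omega), t6g_up hp2 (by omega) (by omega) ?_]
        · exact lku1 j r hj (by omega) hr hp he
        · intro h; exact ag _ (by omega) (fun h2 => hsq.2 ⟨h2, h⟩)
    · have hd := t6_d0 (n := n) (M := M) hp
      rw [hd.1, hd.2] at hsq ⊢
      have hp2 : ¬ (j + 1 + (r + 1)) % 2 = (n + M) % 2 := by omega
      rw [Ne, t6_zero hp, Ne, t6_zero hp2] at hsq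
      by_cases hrM : r < M
      · rw [t6g_low hp (by omega), t6g_low hp2 (by omega)]
        exact lkl0 j r hj hrM hp he
      · rw [t6g_up hp (by omega) (by omega) ?_, t6g_up hp2 (by omega) (by omega) (by omega)]
        · exact lku0 j r hj (by omega) hr hp he
        · intro h; exact ag _ (by omega) (fun h2 => hsq.1 ⟨h2, h⟩)
  have gxy : t6g n M fl fu x = t6g n M fl fu y := by
    clear hx hy
    induction hxy with
    | refl => rfl
    | tail _ hs ih =>
      obtain ⟨e, he, h | h⟩ := hs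
      · rw [ih, ← h.1, ← h.2]; exact gconst e he
      · rw [ih, ← h.1, ← h.2]; exact (gconst e he).symm
  have gx : t6g n M fl fu x = fu ((n + 1 : ℕ), M) := by
    rcases hx with ⟨he, rfl⟩ | ⟨he, rfl⟩
    · have hed : ed n M n M = (0, 0, true) := by
        unfold ed; rw [if_pos rfl]; simp
      have hd := t6_d1 (n := n) (M := M) (j := n) (r := M) rfl
      rw [hed] at hd
      have hd1 : dv n M n (M + 1) = (0, -1) := by rw [← hd.1]; simp
      rw [← hd1, t6g_up (by omega) (by omega) (by omega) (by omega)]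
      rw [lku1 n M (by omega) le_rfl (by omega) rfl (by rw [hed]; exact he)]
      congr 2
      omega
    · have hed : ed n M (n + 1) M = (1, 0, false) := by
        unfold ed; rw [if_neg (by omega)]; simp
      have hd := t6_d0 (n := n) (M := M) (j := n + 1) (r := M) (by omega)
      rw [hed] at hd
      have hd1 : dv n M (n + 1 + 1) (M + 1) = (1, 0) := by rw [← hd.2]; simp
      rw [← hd1, t6g_up (by omega) (by omega) (by omega) (by omega)]
      rw [← lku0 (n + 1) M (by omega) le_rfl (by omega) (by omega) (by rw [hed]; exact he)]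
      congr 2
      omega
  have gy : t6g n M fl fu y = fl ((n + 1 : ℕ), M) := by
    have h8 : ((M - 1 : ℕ) : ℤ) = (M : ℤ) - 1 := by omega
    have hM1 : M - 1 + 1 = M := by omega
    rcases hy with ⟨he, rfl⟩ | ⟨he, rfl⟩
    · have hed : ed n M n (M - 1) = (0, 0, false) := by
        unfold ed; rw [if_neg (by omega), h8]; simp
      have hd := t6_d0 (n := n) (M := M) (j := n) (r := M - 1) (by omega)
      rw [hed] at hd
      have hd1 : dv n M n (M - 1) = (-1, 0) := by rw [← hd.1]; simp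
      rw [← hd1, t6g_low (by omega) (by omega)]
      have := lkl0 n (M - 1) (by omega) (by omega) (by omega) (by rw [hed]; exact he)
      rw [this, hM1]
    · have hed : ed n M (n + 1) (M - 1) = (0, 1, true) := by
        unfold ed; rw [if_pos (by omega), h8]; simp
      have hd := t6_d1 (n := n) (M := M) (j := n + 1) (r := M - 1) (by omega)
      rw [hed] at hd
      have hd1 : dv n M (n + 1 + 1) (M - 1) = (0, 1) := by rw [← hd.2]; simp
      rw [← hd1, t6g_low (by omega) (by omega)]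
      have := lkl1 (n + 1) (M - 1) (by omega) (by omega) (by omega) (by rw [hed]; exact he)
      rw [← this, hM1]
  exact agm (by rw [← gx, ← gy, gxy])

/-! ### the primal arms -/

theorem t6_conn_b {L : ℕ} {σ τ : Pat L} {a b : Fin L} (hP : P4 a b σ τ) :
    Conn σ.1 τ.1 (some b) none := by
  intro h hs ht
  obtain ⟨h0, h0s, h0t⟩ := exists_alt σ.1 τ.1 σ.2.inv σ.2.nofix τ.2.inv τ.2.nofix
  have e1 := hP.2 h0 ⟨h0s, h0t⟩
  have e2 := hP.2 (fun v => xor (h0 v) (h v)) ⟨fun v => by
    show xor (h0 (σ.1 v)) (h (σ.1 v)) = !(xor (h0 v) (h v))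
    rw [h0s, hs]; cases h0 v <;> cases h v <;> rfl, fun v => by
    show xor (h0 (τ.1 v)) (h (τ.1 v)) = !(xor (h0 v) (h v))
    rw [h0t, ht]; cases h0 v <;> cases h v <;> rfl⟩
  have e2' : xor (h0 (some a)) (h (some a)) = xor (h0 (some b)) (h (some b)) := e2
  rw [e1] at e2'
  have e3 : h (some a) = h (some b) := by
    revert e2'
    cases h0 (some b) <;> cases h (some a) <;> cases h (some b) <;> simp
  rw [← e3]
  exact hP.1 h hs ht

open Classical in
theorem t6_primal {n M : ℕ} (hn : 1 ≤ n) (hM : n ≤ M) {F : Finset Edg}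
    (hF : ¬ FarP n (↑F : Set Edg) (1, 1)) (σ τ : Pat (2 * n + 1)) :
    pr (⟨n + 1, by omega⟩ : Fin (2 * n + 1)) (rows (2 * n) (cl n M F) M σ)
      (rows (2 * n) (cu n M F) M τ) = 0 := by
  have hadj : ∀ j r j' r', Adj (↑F : Set Edg) (pv n M j r) (pv n M j' r') →
      decide (Reach (↑F : Set Edg) (1, 1) (pv n M j r))
        = decide (Reach (↑F : Set Edg) (1, 1) (pv n M j' r')) := by
    intro j r j' r' h
    congr 1
    exact propext ⟨fun h1 => h1.trans h.reach, fun h1 => h1.trans h.symm.reach⟩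
  apply pr_zero_of (ε := (n + M) % 2) (Nat.mod_lt _ (by norm_num))
    (H := fun j r => decide (Reach (↑F : Set Edg) (1, 1) (pv n M j r)))
  · intro j r hj hr hp hb
    rw [decide_eq_false_iff_not]
    intro h
    exact hF ⟨_, h, pv_bdr hM hp hb⟩
  · intro r hr j hs hp
    exact hadj _ _ _ _ (link_p0 hp (pst_false_p hs hp))
  · intro r hr j hs hp
    have hp' : ¬ (j.val + r) % 2 = (n + M) % 2 := by omega
    exact hadj _ _ _ _ (link_p1 hp' (pst_true_p hs hp'))
  · have h5 : ¬ (n + 1 + M) % 2 = (n + M) % 2 := by omega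
    simp only [lab, Nat.mul_zero, Nat.zero_add, if_neg h5]
    rw [decide_eq_true_iff]
    have h : pv n M (n + 1 + 1) M = (1, 1) := by
      unfold pv
      push_cast
      simp only [Prod.mk.injEq]
      constructor <;> omega
    rw [h]
    exact Reach.refl _ _

/-! ### main statement -/

theorem P4_arms {n M : ℕ} (hn : 1 ≤ n) (hM : n ≤ M) {F : Finset Edg} {G : Set Edg}
    (hG : ∀ j r, j < 2 * n + 1 → r < 2 * M → (ed n M j r ∉ F ↔ ed n M j r ∈ G))
    (hG' : ∀ e ∈ G, ∃ j r, j < 2 * n + 1 ∧ r < 2 * M ∧ e = ed n M j r)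
    (σ τ : Pat (2 * n + 1))
    (h : P4 (⟨n, by omega⟩ : Fin (2 * n + 1)) (⟨n + 1, by omega⟩ : Fin (2 * n + 1))
      (rows (2 * n) (cl n M F) M σ) (rows (2 * n) (cu n M F) M τ)) :
    V4 n (↑F : Set Edg) G := by
  classical
  have hK : ∀ S : Vtx → Prop, ∀ e ∈ G \ sq,
      decide (∃ s, S s ∧ DReach (G \ sq) s (dsrc e)) = decide (∃ s, S s ∧ DReach (G \ sq) s (dtgt e)) := by
    intro S e he
    congr 1
    have hadj : DAdj (G \ sq) (dsrc e) (dtgt e) := ⟨e, he, Or.inl ⟨rfl, rfl⟩⟩
    exact propext ⟨fun ⟨s, h1, h2⟩ => ⟨s, h1, h2.trans hadj.reach⟩,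
      fun ⟨s, h1, h2⟩ => ⟨s, h1, h2.trans hadj.symm.reach⟩⟩
  have hno := t6_noconn hn hM hG hG' σ τ h
  refine ⟨?_, ?_, ?_, ?_⟩
  · by_contra hc
    have := pr_le_p hM hc σ τ
    unfold pr at this
    rw [if_pos h.1] at this
    exact one_ne_zero this
  · by_contra hc
    have := t6_primal hn hM hc σ τ
    unfold pr at this
    rw [if_pos (t6_conn_b h)] at this
    exact one_ne_zero this
  · by_contra hc
    let S : Vtx → Prop := fun s =>
      (((0, 0, true) : Edg) ∈ G ∧ s = (0, -1)) ∨ (((1, 0, false) : Edg) ∈ G ∧ s = (1, 0))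
    have key := t6_label hn hM hG σ τ h (fun x => decide (∃ s, S s ∧ DReach (G \ sq) s x))
      true false (hK S) ?_ ?_ ?_ ?_ ?_
    · exact absurd key.2 (by decide)
    · intro x hx
      rw [decide_eq_false_iff_not]
      rintro ⟨s, hs, hr⟩
      apply hc
      rcases hs with ⟨h1, rfl⟩ | ⟨h1, rfl⟩
      · exact Or.inl ⟨h1, x, hr, hx⟩
      · exact Or.inr ⟨h1, x, hr, hx⟩
    · intro h1
      exact decide_eq_true ⟨_, Or.inl ⟨h1, rfl⟩, DReach.refl _ _⟩
    · intro h1
      exact decide_eq_true ⟨_, Or.inr ⟨h1, rfl⟩, DReach.refl _ _⟩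
    · intro h1
      rw [decide_eq_false_iff_not]
      rintro ⟨s, hs, hr⟩
      exact hno s _ hs (Or.inl ⟨h1, rfl⟩) hr
    · intro h1
      rw [decide_eq_false_iff_not]
      rintro ⟨s, hs, hr⟩
      exact hno s _ hs (Or.inr ⟨h1, rfl⟩) hr
  · by_contra hc
    let S : Vtx → Prop := fun s =>
      (((0, 0, false) : Edg) ∈ G ∧ s = (-1, 0)) ∨ (((0, 1, true) : Edg) ∈ G ∧ s = (0, 1))
    have key := t6_label hn hM hG σ τ h (fun x => decide (∃ s, S s ∧ DReach (G \ sq) s x))
      false true (hK S) ?_ ?_ ?_ ?_ ?_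
    · exact absurd key.1 (by decide)
    · intro x hx
      rw [decide_eq_false_iff_not]
      rintro ⟨s, hs, hr⟩
      apply hc
      rcases hs with ⟨h1, rfl⟩ | ⟨h1, rfl⟩
      · exact Or.inl ⟨h1, x, hr, hx⟩
      · exact Or.inr ⟨h1, x, hr, hx⟩
    · intro h1
      rw [decide_eq_false_iff_not]
      rintro ⟨s, hs, hr⟩
      exact hno _ s (Or.inl ⟨h1, rfl⟩) hs hr.symm
    · intro h1
      rw [decide_eq_false_iff_not]
      rintro ⟨s, hs, hr⟩
      exact hno _ s (Or.inr ⟨h1, rfl⟩) hs hr.symm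
    · intro h1
      exact decide_eq_true ⟨_, Or.inl ⟨h1, rfl⟩, DReach.refl _ _⟩
    · intro h1
      exact decide_eq_true ⟨_, Or.inr ⟨h1, rfl⟩, DReach.refl _ _⟩

end Pool.Agent.H988R4
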