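import Pool.Agent.H988R4.MeasureCore
import Pool.Agent.H988R4.ToArms
import Pool.Agent.H988R3.Homog4

/-!
# From the stationary measure to the box (task T5)
-/

namespace Pool.Agent.H988R4
open Equiv Finset Pool.Agent.H974R3 Pool.Agent.H988R3
open H974 hiding SS

theorem p4val_le_box (n M : ℕ) (hn : 1 ≤ n) (hM : n ≤ M) :
    p4val n ≤ Pr (fun _ => 1/2) (SS n M) (fun F => V4 n (↑F : Set Edg)
      (↑(SS n M \ F) : Set Edg)) := by
  obtain ⟨μ, h0, h1, h2, h3⟩ := T5_value_mid n hn (fun μ hμ hst => pairing4_value n hn μ hμ hst)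
  rw [← h3]
  refine T5_upper n M μ h1 h0 h2 _ (fun σ τ => T5_pr4_le_one _ _ σ τ) _ ?_
  intro F hF hA σ τ
  have hP : ¬ P4 (⟨n, by omega⟩ : Fin (2 * n + 1)) (⟨n + 1, by omega⟩ : Fin (2 * n + 1))
      (rows (2 * n) (cl n M F) M σ) (rows (2 * n) (cu n M F) M τ) := by
    intro hP
    refine hA (P4_arms hn hM (F := F) (G := (↑(SS n M \ F) : Set Edg)) ?_ ?_ σ τ hP)
    · intro j r hj hr
      rw [Finset.coe_sdiff]
      constructor
      · intro h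
        exact ⟨Finset.mem_coe.2 (mem_SS.2 ⟨j, r, hj, hr, rfl⟩), fun h' => h (Finset.mem_coe.1 h')⟩
      · intro h h'
        exact h.2 (Finset.mem_coe.2 h')
    · intro e he
      rw [Finset.coe_sdiff] at he
      obtain ⟨j, r, hj, hr, h⟩ := mem_SS.1 (Finset.mem_coe.1 he.1)
      exact ⟨j, r, hj, hr, h.symm⟩
  unfold pr4
  rw [if_neg hP]
  simp

theorem Pr_le_p4val (n M : ℕ) (hn : 1 ≤ n) (A : Finset Edg → Prop)
    (hA : ∀ F, F ⊆ SS n M → A F → ∀ σ τ : Pat (2 * n + 1),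
      P4 (⟨n, by omega⟩ : Fin (2 * n + 1)) (⟨n + 1, by omega⟩ : Fin (2 * n + 1))
      (rows (2 * n) (cl n M F) M σ) (rows (2 * n) (cu n M F) M τ)) :
    Pr (fun _ => 1/2) (SS n M) A ≤ p4val n := by
  obtain ⟨μ, h0, h1, h2, h3⟩ := T5_value_mid n hn (fun μ hμ hst => pairing4_value n hn μ hμ hst)
  rw [← h3]
  refine T5_lower n M μ h1 h0 h2 _ (fun σ τ => T5_pr4_nonneg _ _ σ τ) _ ?_
  intro F hF hAF σ τ
  unfold pr4
  rw [if_pos (hA F hF hAF σ τ)]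
  simp

theorem Pr_le_pval (n M : ℕ) (A : Finset Edg → Prop)
    (hA : ∀ F, F ⊆ SS n M → A F → ∀ σ τ : Pat (2 * n + 1),
      pr (⟨n, by omega⟩ : Fin (2 * n + 1))
      (rows (2 * n) (cl n M F) M σ) (rows (2 * n) (cu n M F) M τ) = 1) :
    Pr (fun _ => 1/2) (SS n M) A ≤ pval n := by
  obtain ⟨μ, h0, h1, h2, _, _⟩ := markov_exists n
  have h3 := pairing_value n μ h1 h2 (⟨n, by omega⟩ : Fin (2 * n + 1))
  have h4 : (∑ σ, ∑ τ, μ σ * μ τ * (pr (⟨n, by omega⟩ : Fin (2 * n + 1)) σ τ).re) = pval n := by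
    rw [← h3]
    refine Finset.sum_congr rfl fun σ _ => ?_
    refine Finset.sum_congr rfl fun τ _ => ?_
    ring
  rw [← h4]
  refine T5_lower n M μ h1 h0 h2 _ (fun σ τ => H974R3.pr_re_nonneg _ σ τ) _ ?_
  intro F hF hAF σ τ
  rw [hA F hF hAF σ τ]
  simp

end Pool.Agent.H988R4
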