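import Pool.Agent.H988R4.Defs

/-!
# Transfer: statements.  DO NOT import in final proofs.
-/

namespace Pool.Agent.H988R4
open Equiv Pool.Agent.H974R3 Pool.Agent.H988R3
open H974 hiding SS

/-! ## T1 (file FluxRow.lean) -/

theorem flux_row {m : ℕ} (c : Fin (m + 1) → Bool) (s : Pat (m + 1)) (φ : Vx (m + 1) → ℤ)
    (h : Flux (Tc m c s) φ) : ∃ (ψ : Vx (m + 1) → ℤ) (Hc : Fin (m + 1) → ℤ),
      Flux s ψ ∧ ψ none = φ none ∧
      FRules m c (fun p => ψ (some p)) (fun p => φ (some p)) Hc := sorry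

/-! ## T2 (file Cover.lean, imports FluxRow) -/

/-- height function on the faces of the universal cover of the lower half cylinder -/
theorem flux_half {m M : ℕ} (c : ℕ → Fin (m + 1) → Bool) (σ : Pat (m + 1))
    (φ : Vx (m + 1) → ℤ) (h : Flux (rows m c M σ) φ) :
    ∃ f : ℤ × ℕ → ℤ, (∀ a b, LK m M c a b → f a = f b) ∧
      (∀ j r, r ≤ M → f (j + ((m : ℤ) + 1), r) = f (j, r) - φ none) ∧
      (∀ j, f (j + 1, M) = f (j, M) + φ (some (izx m j))) ∧ f (0, M) = 0 := sorry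
theorem flux_cover {m M : ℕ} (c : ℕ → Fin (m + 1) → Bool) (σ τ : Pat (m + 1))
    (φ : Vx (m + 1) → ℤ) (h1 : Flux (rows m c M σ) φ) (h2 : Flux (rows m (upr M c) M τ) φ) :
    ∃ f : ℤ × ℕ → ℤ, (∀ a b, LK m (2 * M) c a b → f a = f b) ∧
      (∀ j r, r ≤ 2 * M → f (j + ((m : ℤ) + 1), r) = f (j, r) - φ none) ∧
      ∀ j, f (j + 1, M) = f (j, M) + φ (some (izx m j)) := sorry

/-! ## T3 (file FromCR.lean, imports Cover, P4Base/P4Tri) -/

theorem flux_exists {L : ℕ} (σ τ : Pat L) (h : Vx L → Bool) (hh : Alt σ.1 τ.1 h) :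
    ∃ φ : Vx L → ℤ, Flux σ φ ∧ Flux τ φ ∧ φ none = -1 ∧
      (∀ v, φ v = 1 → Conn σ.1 τ.1 v none ∧ h v ≠ h none) ∧
      (∀ v, Conn σ.1 τ.1 v none → φ v = if h v = h none then -1 else 1) := sorry
theorem pr_of_CR {m M : ℕ} (c : ℕ → Fin (m + 1) → Bool) (σ τ : Pat (m + 1)) (j : ℤ)
    (h : CR m (2 * M) c (j + 1, M) (j + ((m : ℤ) + 1), M)) :
    pr (izx m j) (rows m c M σ) (rows m (upr M c) M τ) = 1 := sorry
theorem P4_of_CR {m M : ℕ} (c : ℕ → Fin (m + 1) → Bool) (σ τ : Pat (m + 1)) (j : ℤ)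
    (h : CR m (2 * M) c (j + 1, M) (j + ((m : ℤ) + 1), M))
    (h' : CR m (2 * M) c (j + 2, M) (j + 1 + ((m : ℤ) + 1), M)) :
    P4 (izx m j) (izx m (j + 1)) (rows m c M σ) (rows m (upr M c) M τ) := sorry

/-! ## T4 (file Flip.lean) -/

theorem no_same_sum {L : ℕ} (σ τ : Pat L) (a b : Fin L) (hab : a ≠ b) (hP : P4 a b σ τ)
    (gl gu : Vx L → Bool) (hl : ∀ v, gl (σ.1 v) = gl v) (hu : ∀ v, gu (τ.1 v) = gu v)
    (hn : gl none = false) (hn' : gu none = false)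
    (hag : ∀ v, v ≠ some a → v ≠ some b → gl v = gu v)
    (h1 : gl (some a) = gl (some b)) (h2 : gu (some a) = gu (some b)) :
    gl (some a) = false ∧ gu (some a) = false := sorry
theorem flip_flux {m : ℕ} (hm : 1 ≤ m) (i : ℕ) (σ τ : Pat (m + 1))
    (hP : P4 (ix m i) (ix m (i + 1)) σ τ) :
    ∃ ψ φ : Vx (m + 1) → ℤ, Flux σ ψ ∧ Flux τ φ ∧
      (∀ v, v ≠ some (ix m i) → v ≠ some (ix m (i + 1)) → ψ v = φ v) ∧
      ψ (some (ix m (i + 1))) = -ψ (some (ix m i)) ∧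
      φ (some (ix m (i + 1))) = -φ (some (ix m i)) ∧
      ψ (some (ix m i)) ≠ φ (some (ix m i)) := sorry

/-! ## T6 (file ToArms.lean, imports Cover, Flip) -/

theorem P4_arms {n M : ℕ} (hn : 1 ≤ n) (hM : n ≤ M) {F : Finset Edg} {G : Set Edg}
    (hG : ∀ j r, j < 2 * n + 1 → r < 2 * M → (ed n M j r ∉ F ↔ ed n M j r ∈ G))
    (hG' : ∀ e ∈ G, ∃ j r, j < 2 * n + 1 ∧ r < 2 * M ∧ e = ed n M j r)
    (σ τ : Pat (2 * n + 1))
    (h : P4 (⟨n, by omega⟩ : Fin (2 * n + 1)) (⟨n + 1, by omega⟩ : Fin (2 * n + 1))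
      (rows (2 * n) (cl n M F) M σ) (rows (2 * n) (cu n M F) M τ)) :
    V4 n (↑F : Set Edg) G := sorry

/-! ## T5 (file Measure.lean) -/

theorem p4val_le_box (n M : ℕ) (hn : 1 ≤ n) (hM : n ≤ M) :
    p4val n ≤ Pr (fun _ => 1/2) (SS n M) (fun F => V4 n (↑F : Set Edg)
      (↑(SS n M \ F) : Set Edg)) := sorry
theorem Pr_le_p4val (n M : ℕ) (hn : 1 ≤ n) (A : Finset Edg → Prop)
    (hA : ∀ F, F ⊆ SS n M → A F → ∀ σ τ : Pat (2 * n + 1),
      P4 (⟨n, by omega⟩ : Fin (2 * n + 1)) (⟨n + 1, by omega⟩ : Fin (2 * n + 1))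
      (rows (2 * n) (cl n M F) M σ) (rows (2 * n) (cu n M F) M τ)) :
    Pr (fun _ => 1/2) (SS n M) A ≤ p4val n := sorry
theorem Pr_le_pval (n M : ℕ) (A : Finset Edg → Prop)
    (hA : ∀ F, F ⊆ SS n M → A F → ∀ σ τ : Pat (2 * n + 1),
      pr (⟨n, by omega⟩ : Fin (2 * n + 1))
      (rows (2 * n) (cl n M F) M σ) (rows (2 * n) (cu n M F) M τ) = 1) :
    Pr (fun _ => 1/2) (SS n M) A ≤ pval n := sorry

end Pool.Agent.H988R4
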